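import Mathlib
import Pool.Agent.V5helper30.OP.ExcC
import Pool.Agent.V5helper30.OQ.Main

set_option autoImplicit false

/-!
# One generator of odd prime order, even exponents: involutions
-/

namespace Pool.Agent.V5helper30.OE

open Pool.Agent.H32BU Pool.Agent.W629 Pool.Agent.TH69.Mtn Pool.Agent.TH69.Od Pool.Agent.TH69.Og
open Pool.Agent.TH69.Oh Pool.Agent.TH69.Ok Pool.Agent.TH69.Pq Pool.Agent.N6.Pf
open Pool.Agent.V5helper30.OP (OPr OPP dih inv_prime DD4 bs4)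
open Pool.Agent.V5helper30.OQ (Rab Rab.mem tt_sub fs_sub rad_step c2_rad map_c2_sub)

universe u

/-- the hypotheses on the group -/
structure Sv (m α : ℕ) (G : Type) [Group G] : Prop where
  hm : ¬ 2 ∣ m
  exp : ∀ x : G, x ^ (2 ^ α * m) = 1
  f1 : ∀ x y : G, OPr y → Finite (c2 x y) ∧ Group.IsSolvable (c2 x y)
  f3 : 3 ≤ α → ∀ w z : G, w ^ 2 = 1 → z ^ 2 ^ α = 1 →
    Finite (c2 w z) ∧ Group.IsSolvable (c2 w z)

variable {G : Type} [Group G] {m α : ℕ}

theorem opr_conj {G : Type u} [Group G] {y : G} (h : OPr y) (g : G) : OPr (g * y * g⁻¹) := by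
  obtain ⟨r, h1, h2, h3⟩ := h
  exact ⟨r, h1, h2, conj_pow_one h3⟩

theorem Sv.hm0 (S : Sv m α G) : m ≠ 0 := by
  rintro rfl
  exact S.hm (dvd_zero _)

theorem Sv.hn0 (S : Sv m α G) : 2 ^ α * m ≠ 0 :=
  Nat.mul_ne_zero (pow_ne_zero _ two_ne_zero) S.hm0

theorem Sv.h2m (S : Sv m α G) : Nat.Coprime 2 m :=
  (Nat.Prime.coprime_iff_not_dvd Nat.prime_two).2 S.hm

theorem Sv.cop (S : Sv m α G) : Nat.Coprime (2 ^ α) m := Nat.Coprime.pow_left _ S.h2m

theorem Sv.exp' (S : Sv m α G) : ∀ x : G, x ^ (m * 2 ^ α) = 1 := by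
  rw [mul_comm]
  exact S.exp

theorem Sv.f1' (S : Sv m α G) (x y : G) (h : OPr x) :
    Finite (c2 x y) ∧ Group.IsSolvable (c2 x y) := by
  rw [c2_comm]
  exact S.f1 y x h

theorem Sv.opr_m (S : Sv m α G) {y : G} (h : OPr y) : y ^ m = 1 := by
  obtain ⟨s, h1, h2, h3⟩ := h
  refine W629.eq_one_of_coprime (a := s) (b := 2 ^ α) ?_ ?_ ?_
  · exact Nat.Coprime.pow_right _ ((Nat.coprime_primes h1 Nat.prime_two).2 h2)
  · rw [← pow_mul, mul_comm, pow_mul, h3, one_pow]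
  · rw [← pow_mul, S.exp']

/-- nice elements -/
theorem nice_ex (S : Sv m α G) {P Q : ℕ} (hab : Nat.Coprime P Q) (hn : P * Q = 2 ^ α * m)
    (rM : Rad P G = ⊥) {e : G} (hep : OPr e) (he : e ^ P = 1) (he1 : e ≠ 1) :
    ∃ g, Nice P e g := by
  classical
  have hexp : ∀ x : G, x ^ (P * Q) = 1 := by rw [hn]; exact S.exp
  -- subgroups with `e` outside the radical
  have step : ∀ K : Subgroup G, Finite K → Group.IsSolvable K → e ∈ K →
      (∃ t ∈ K, t ^ P = 1 ∧ (e * t) ^ P ≠ 1) →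
      ∃ k ∈ K, ¬ ∀ x ∈ c2 e (k * e * k⁻¹), x ^ P = 1 := by
    rintro K hK hKs heK ⟨t, htK, ht, het⟩
    by_contra hcon
    push Not at hcon
    have h1 := bsfG hab (exp_sub hexp K) hKs (e := ⟨e, heK⟩) (Subtype.ext he) (by
      intro k x hx
      apply Subtype.ext
      rw [Subgroup.coe_pow, Subgroup.coe_one]
      refine hcon k k.2 x ?_
      have h2 : (c2 (⟨e, heK⟩ : K) (k * ⟨e, heK⟩ * k⁻¹)).map K.subtype =
          c2 e ((k : G) * e * (k : G)⁻¹) := by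
        unfold c2
        rw [MonoidHom.map_closure, Set.image_pair]
        rfl
      rw [← h2]
      exact ⟨x, hx, rfl⟩)
    have h2 := rad_mul h1 (z := ⟨t, htK⟩) (Subtype.ext ht)
    exact het (congrArg Subtype.val h2)
  obtain ⟨t, ht, het⟩ : ∃ t : G, t ^ P = 1 ∧ (e * t) ^ P ≠ 1 := by
    by_contra hcon
    push Not at hcon
    have h1 : e ∈ Rad P G := ⟨he, hcon⟩
    rw [rM] at h1
    exact he1 h1
  have hex : ∃ d, ∃ g : G, (¬ ∀ x ∈ c2 e (g * e * g⁻¹), x ^ P = 1) ∧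
      Nat.card (c2 e (g * e * g⁻¹)) = d := by
    obtain ⟨k, -, hk⟩ := step (c2 e t) (S.f1' e t hep).1 (S.f1' e t hep).2
      (Subgroup.subset_closure (by simp)) ⟨t, Subgroup.subset_closure (by simp), ht, het⟩
    exact ⟨_, k, hk, rfl⟩
  obtain ⟨g, hg, hgd⟩ := Nat.find_spec hex
  have hmin := fun d (hd : d < Nat.find hex) => Nat.find_min hex hd
  have hfin := (S.f1' e (g * e * g⁻¹) hep).1
  have hsol := (S.f1' e (g * e * g⁻¹) hep).2
  have heK : e ∈ c2 e (g * e * g⁻¹) := Subgroup.subset_closure (by simp)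
  have hgK : g * e * g⁻¹ ∈ c2 e (g * e * g⁻¹) := Subgroup.subset_closure (by simp)
  have h1 : ∃ t ∈ c2 e (g * e * g⁻¹), t ^ P = 1 ∧ (e * t) ^ P ≠ 1 := by
    by_contra hcon
    push Not at hcon
    -- `e` is in the radical of `K`
    let e' : c2 e (g * e * g⁻¹) := ⟨e, heK⟩
    let y' : c2 e (g * e * g⁻¹) := ⟨g * e * g⁻¹, hgK⟩
    have h2 : e' ∈ Rad P (c2 e (g * e * g⁻¹)) :=
      ⟨Subtype.ext he, fun z hz => Subtype.ext (hcon z z.2 (congrArg Subtype.val hz))⟩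
    apply hg
    intro x hx
    have h4 : (⊤ : Subgroup (c2 e (g * e * g⁻¹))) = c2 e' y' := by
      apply Subgroup.map_injective (c2 e (g * e * g⁻¹)).subtype_injective
      rw [← MonoidHom.range_eq_map, Subgroup.range_subtype, map_c2']
      rfl
    have h7 := c2_rad hab (exp_sub hexp _) h2 (y := y') (Subtype.ext (conj_pow_one he))
      (x := ⟨x, hx⟩) (by rw [← h4]; exact Subgroup.mem_top _)
    exact congrArg Subtype.val h7
  obtain ⟨k, hkK, hk⟩ := step _ hfin hsol heK h1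
  have hle : c2 e (k * e * k⁻¹) ≤ c2 e (g * e * g⁻¹) :=
    c2_le heK (mul_mem (mul_mem hkK heK) (inv_mem hkK))
  have heq : c2 e (k * e * k⁻¹) = c2 e (g * e * g⁻¹) := by
    refine Subgroup.eq_of_le_of_card_ge hle ?_
    by_contra hlt
    push Not at hlt
    rw [hgd] at hlt
    exact hmin _ hlt ⟨k, hk, rfl⟩
  exact ⟨k, by rw [heq]; exact hkK, hk⟩

/-- an involution outside the radical has a product with an involution of order not a power of
two -/
theorem inv_pair (S : Sv m α G) (r2 : Rad (2 ^ α) G = ⊥) {w : G} (hw : w * w = 1) (hw1 : w ≠ 1) :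
    ∃ j : G, j * j = 1 ∧ (w * j) ^ 2 ^ α ≠ 1 := by
  have hα : 1 ≤ α := by
    by_contra h
    have h0 : α = 0 := by omega
    have h1 := S.exp w
    rw [h0, pow_zero, one_mul] at h1
    exact hw1 (W629.eq_one_of_coprime S.h2m (by rw [pow_two]; exact hw) h1)
  by_contra hcon
  push Not at hcon
  obtain ⟨z, hz, hwz⟩ : ∃ z : G, z ^ 2 ^ α = 1 ∧ (w * z) ^ 2 ^ α ≠ 1 := by
    by_contra hcon2
    push Not at hcon2
    have hwα : w ^ 2 ^ α = 1 := by
      obtain ⟨c, hc⟩ : 2 ∣ 2 ^ α := dvd_pow_self 2 (by omega)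
      rw [hc, pow_mul, pow_two, hw, one_pow]
    have h1 : w ∈ Rad (2 ^ α) G := ⟨hwα, hcon2⟩
    rw [r2] at h1
    exact hw1 h1
  rcases (show α = 1 ∨ α = 2 ∨ 3 ≤ α by omega) with h | h | h
  · subst h
    rw [pow_one, pow_two] at hz
    exact hwz (hcon z hz)
  · subst h
    have hD : DD4 w := ⟨hw, hcon⟩
    have h1 := bs4 hD (x := z) hz
    have h2 : (w * z) ^ 16 = 1 := by
      have e : w * z = z⁻¹ * (z * w) * z⁻¹⁻¹ := by group
      rw [e, conj_pow, h1, mul_one, mul_inv_cancel]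
    apply hwz
    refine W629.eq_one_of_coprime (a := 4) (b := m) ?_ ?_ ?_
    · exact Nat.Coprime.pow_left 2 S.h2m
    · rw [← pow_mul]
      exact h2
    · rw [← pow_mul]
      exact S.exp _
  · obtain ⟨hfin, hsol⟩ := S.f3 h w z (by rw [pow_two]; exact hw) hz
    have hwE : w ∈ c2 w z := Subgroup.subset_closure (by simp)
    have hzE : z ∈ c2 w z := Subgroup.subset_closure (by simp)
    have hwα : w ^ 2 ^ α = 1 := by
      obtain ⟨c, hc⟩ : 2 ∣ 2 ^ α := dvd_pow_self 2 (by omega)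
      rw [hc, pow_mul, pow_two, hw, one_pow]
    have h1 := bsfG S.cop (exp_sub S.exp (c2 w z)) hsol (e := ⟨w, hwE⟩) (Subtype.ext hwα) (by
      intro k x hx
      refine dih (w := (⟨w, hwE⟩ : c2 w z)) (Subtype.ext hw) ?_ (dvd_pow_self 2 (by omega)) ?_ x hx
      · have e : k * (⟨w, hwE⟩ : c2 w z) * k⁻¹ * (k * ⟨w, hwE⟩ * k⁻¹) =
            k * ((⟨w, hwE⟩ : c2 w z) * ⟨w, hwE⟩) * k⁻¹ := by group
        have e2 : (⟨w, hwE⟩ : c2 w z) * ⟨w, hwE⟩ = 1 := Subtype.ext hw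
        rw [e, e2, mul_one, mul_inv_cancel]
      · apply Subtype.ext
        refine hcon ((k : G) * w * (k : G)⁻¹) ?_
        have e : (k : G) * w * (k : G)⁻¹ * ((k : G) * w * (k : G)⁻¹) =
            (k : G) * (w * w) * (k : G)⁻¹ := by group
        rw [e, hw, mul_one, mul_inv_cancel])
    have h2 := rad_mul h1 (z := ⟨z, hzE⟩) (Subtype.ext hz)
    exact hwz (congrArg Subtype.val h2)

/-- involutions outside the radical invert elements of odd prime order -/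
theorem invol (S : Sv m α G) (r2 : Rad (2 ^ α) G = ⊥) {w : G} (hw : w * w = 1) (hw1 : w ≠ 1) :
    ∃ v : G, OPr v ∧ v ≠ 1 ∧ w * v * w⁻¹ = v⁻¹ := by
  obtain ⟨j, hj, hwj⟩ := inv_pair S r2 hw hw1
  have hw' : w⁻¹ = w := inv_eq_of_mul_eq_one_left hw
  have hj' : j⁻¹ = j := inv_eq_of_mul_eq_one_left hj
  have hwu : w * (w * j) * w⁻¹ = (w * j)⁻¹ := by
    rw [mul_inv_rev, hj', hw', ← mul_assoc, hw, one_mul]
  refine inv_prime S.hm (u := (w * j) ^ 2 ^ α) ?_ hwj ?_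
  · rw [← pow_mul]
    exact S.exp _
  · rw [← conj_pow, hwu, inv_pow]

/-- an involution which lies in `O_{2',2}` of the groups `⟨w, f⟩`, `f` of odd prime order, inverts no
element of odd prime order -/
theorem no_inv (S : Sv m α G) (hα : 1 ≤ α) (rM : Rad m G = ⊥) {w : G}
    (hT : ∀ f : G, OPr f → TT (2 ^ α) m (c2 w f) w) {v : G} (hvp : OPr v) (hv1 : v ≠ 1)
    (hl : w * v * w⁻¹ = v⁻¹) : False := by
  have hvm := S.opr_m hvp
  obtain ⟨s, hs, hs2, hvs⟩ := id hvp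
  have : Fact s.Prime := ⟨hs⟩
  have hsm : s ∣ m := by
    have h1 : orderOf v = s := orderOf_eq_prime hvs hv1
    rw [← h1]
    exact orderOf_dvd_of_pow_eq_one hvm
  obtain ⟨g, hg⟩ := nice_ex S S.cop.symm (mul_comm _ _) rM hvp hvm hv1
  obtain ⟨m1, m2, m3, m4, m5⟩ := gens S.cop.symm (x := v) (k := 1) (g := g) (c := w) hvm
    (one_pow _) (by rw [mul_one, one_mul]) ⟨s - 1, by
      rw [hl, inv_pow, inv_eq_iff_mul_eq_one, ← pow_succ, Nat.sub_add_cancel hs.one_lt.le, hvs]⟩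
    hg.1
  have hv1p : OPr (v * 1) := by
    rw [mul_one]
    exact hvp
  obtain ⟨hKf, hKs⟩ := S.f1' _ (g * w) hv1p
  obtain ⟨K, hK⟩ : ∃ K, K = c2 (v * 1) (g * w) := ⟨_, rfl⟩
  rw [← hK] at m1 m3 m4 hKf hKs
  obtain ⟨v', hv'⟩ : ∃ v' : K, v' = ⟨v, m1⟩ := ⟨_, rfl⟩
  obtain ⟨w', hw'⟩ : ∃ w' : K, w' = ⟨w, m4⟩ := ⟨_, rfl⟩
  have hv's : v' ^ s = 1 := by rw [hv']; exact Subtype.ext hvs
  have hv'1 : v' ≠ 1 := by
    rw [hv']
    intro h
    exact hv1 (congrArg Subtype.val h)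
  have hwv' : w' * v' * w'⁻¹ = v'⁻¹ := by rw [hv', hw']; exact Subtype.ext hl
  have hpow : ∀ i : ℤ, w' * v' ^ i * w'⁻¹ = (v' ^ i)⁻¹ := by
    intro i
    rw [← conj_zpow, hwv', inv_zpow]
  have hgen : ∀ u : K, u ∈ Subgroup.zpowers v' → u ≠ 1 → v' ∈ Subgroup.zpowers u := by
    intro u hu hu1
    obtain ⟨i, rfl⟩ := Subgroup.mem_zpowers_iff.1 hu
    have h1 : (v' ^ i) ^ s = 1 := by
      rw [← zpow_natCast, ← zpow_mul, mul_comm, zpow_mul, zpow_natCast, hv's, one_zpow]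
    have h2 : orderOf v' = s := orderOf_eq_prime hv's hv'1
    have h3 : orderOf (v' ^ i) = s := orderOf_eq_prime h1 hu1
    have h4 : Subgroup.zpowers (v' ^ i) = Subgroup.zpowers v' := by
      refine Subgroup.eq_of_le_of_card_ge (Subgroup.zpowers_le.2 hu) ?_
      rw [Nat.card_zpowers, Nat.card_zpowers, h2, h3]
    rw [h4]
    exact Subgroup.mem_zpowers _
  have h5 : v' ∈ Rad m K := by
    refine Rab.mem (s := s) Nat.prime_two hα S.h2m hsm (exp_sub S.exp K) hKs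
      ⟨w', Subgroup.zpowers v', inferInstance, Subgroup.mem_zpowers _, ?_, ?_, ?_, ?_, ?_, ?_⟩
    · intro a ha b hb
      obtain ⟨i, rfl⟩ := Subgroup.mem_zpowers_iff.1 ha
      obtain ⟨j, rfl⟩ := Subgroup.mem_zpowers_iff.1 hb
      rw [← zpow_add, ← zpow_add, add_comm]
    · intro a ha
      obtain ⟨i, rfl⟩ := Subgroup.mem_zpowers_iff.1 ha
      rw [← zpow_natCast, ← zpow_mul, mul_comm, zpow_mul, zpow_natCast, hv's, one_zpow]
    · intro a ha
      obtain ⟨i, rfl⟩ := Subgroup.mem_zpowers_iff.1 ha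
      rw [hpow]
      exact inv_mem (Subgroup.zpow_mem _ (Subgroup.mem_zpowers _) i)
    · intro B hB _
      by_cases hB1 : B = ⊥
      · exact Or.inl hB1
      · right
        obtain ⟨b, hb⟩ := (Subgroup.ne_bot_iff_exists_ne_one).1 hB1
        refine le_antisymm hB ?_
        rw [Subgroup.zpowers_le]
        have h6 := hgen b (hB b.2) (fun h => hb (Subtype.ext h))
        exact (Subgroup.zpowers_le.2 b.2) h6
    · intro T hT
      rw [Subgroup.zpowers_le]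
      have h6 := hT v' (Subgroup.mem_zpowers _)
      rw [hwv', ← mul_inv_rev, ← pow_two] at h6
      have h7 : v' ^ 2 ≠ 1 := by
        intro h
        exact hv'1 (W629.eq_one_of_coprime ((Nat.coprime_primes hs Nat.prime_two).2 hs2) hv's h)
      have h8 := hgen (v' ^ 2) (Subgroup.pow_mem _ (Subgroup.mem_zpowers _) 2) h7
      exact (Subgroup.zpowers_le.2 (by simpa using inv_mem h6)) h8
    · intro u hu k
      rw [hw']
      refine tt_sub ⟨w, m4⟩ u k (hT _ ?_)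
      have h6 : OPr (u : G) := by
        refine ⟨s, hs, hs2, ?_⟩
        obtain ⟨i, rfl⟩ := Subgroup.mem_zpowers_iff.1 hu
        have h7 : (v' ^ i) ^ s = 1 := by
          rw [← zpow_natCast, ← zpow_mul, mul_comm, zpow_mul, zpow_natCast, hv's, one_zpow]
        exact congrArg Subtype.val h7
      exact opr_conj h6 _
  refine nice_false hg (A := (Rad m K).map K.subtype) ?_ ?_ ⟨v', h5, by rw [hv']; rfl⟩
  · rintro _ ⟨x, hx, rfl⟩
    exact congrArg Subtype.val (rad_pow hx)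
  · rintro _ ⟨x, hx, rfl⟩
    exact ⟨⟨g, m3⟩ * x * ⟨g, m3⟩⁻¹, (rad_normal m).conj_mem x hx _, rfl⟩

/-- powers of elements of maximal order -/
theorem tt2 (S : Sv m α G) (hNC : ∀ q : ℕ, q.Prime → q ∣ m → NoC G α m q)
    {x : G} (hx : x ^ 2 ^ α = 1) : ∀ f : G, OPr f →
      TT (2 ^ α) m (c2 (x ^ 2 ^ (α - 1)) f) (x ^ 2 ^ (α - 1)) := by
  have hp := Nat.prime_two
  have hpm := S.hm
  have hpm' := S.h2m
  have hexp := S.exp
  have hh : ∀ (K : Subgroup G), Finite K → Group.IsSolvable K → ∀ x : K, x ^ 2 ^ α = 1 →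
      TT (2 ^ α) m ⊤ (x ^ 2 ^ (α - 1)) := by
    intro K hK hKs x hx
    refine ind_TTG hp hpm' (fun F _ z => (∃ x : F, x ^ 2 ^ α = 1 ∧ z = x ^ 2 ^ (α - 1)) ∧ Im G F)
      ?_ ?_ (Nat.card K) K le_rfl (exp_sub hexp K) hKs _ ?_ ⟨⟨x, hx, rfl⟩, Im.self K hK hKs⟩
    · rintro F _ N _ _ ⟨⟨x, hx, rfl⟩, hI⟩
      exact ⟨⟨x, by rw [← QuotientGroup.mk_pow, hx]; rfl, by rw [QuotientGroup.mk_pow]⟩,
        hI.quot N⟩
    · rintro F _ _ hF _ - ⟨⟨x, hx, rfl⟩, hI⟩ V L hV hL hVL hVab hVp hLQ hC s hs _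
      exact no_confH hpm hNC hI hF hx V L hV hL hVL hVab hVp hLQ hC hs
    · rw [← pow_mul, mul_comm, pow_mul, hx, one_pow]
  intro f hf
  obtain ⟨z, hzx⟩ : ∃ z, z = x ^ 2 ^ (α - 1) := ⟨_, rfl⟩
  rw [← hzx]
  obtain ⟨hfin, hsol⟩ := S.f1 x f hf
  have hxm : x ∈ c2 x f := Subgroup.subset_closure (by simp)
  have hfm : f ∈ c2 x f := Subgroup.subset_closure (by simp)
  have h1 := hh (c2 x f) hfin hsol (⟨x, hxm⟩) (Subtype.ext hx)
  have h2 := h1.map (c2 x f).subtype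
  rw [← MonoidHom.range_eq_map, Subgroup.range_subtype] at h2
  have h3 : (c2 x f).subtype ((⟨x, hxm⟩ : c2 x f) ^ 2 ^ (α - 1)) = z := by
    rw [hzx]
    rfl
  rw [h3] at h2
  refine h2.mono ?_
  unfold c2
  rw [Subgroup.closure_le]
  rintro y (rfl | hy)
  · rw [hzx]
    exact pow_mem hxm _
  · rw [Set.mem_singleton_iff.1 hy]
    exact hfm

end Pool.Agent.V5helper30.OE
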