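import Mathlib
import Pool.Agent.V5helper30.OE.Base

set_option autoImplicit false

/-!
# One generator of odd prime order, even exponents: centralisers of elements of order `q`
-/

namespace Pool.Agent.V5helper30.OE

open Pool.Agent.H32BU Pool.Agent.W629 Pool.Agent.TH69.Mtn Pool.Agent.TH69.Od Pool.Agent.TH69.Og
open Pool.Agent.TH69.Oh Pool.Agent.TH69.Ok Pool.Agent.TH69.Pq Pool.Agent.N6.Pf
open Pool.Agent.V5helper30.OP (OPr OPP dih inv_prime)
open Pool.Agent.V5helper30.OQ (c2_rad map_c2_sub)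

variable {G : Type} [Group G] {m α q M : ℕ}

/-- the hypotheses for a prime `q` dividing the exponent once -/
structure Sm (m α q M : ℕ) (G : Type) [Group G] : Prop where
  S : Sv m α G
  hq : q.Prime
  hq2 : q ≠ 2
  hM : Nat.Coprime M q
  hn : M * q = 2 ^ α * m
  hα : 1 ≤ α
  rM : Rad M G = ⊥

theorem Sm.hqm (S : Sm m α q M G) : ∃ m', M = 2 ^ α * m' ∧ m = q * m' := by
  have h2q : Nat.Coprime q 2 := (Nat.coprime_primes S.hq Nat.prime_two).2 S.hq2
  have h1 : q ∣ 2 ^ α * m := by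
    rw [← S.hn]
    exact dvd_mul_left _ _
  obtain ⟨m', hm'⟩ := Nat.Coprime.dvd_of_dvd_mul_left (Nat.Coprime.pow_right _ h2q) h1
  refine ⟨m', ?_, hm'⟩
  have h2 : M * q = (2 ^ α * m') * q := by
    rw [S.hn, hm']
    ring
  exact Nat.eq_of_mul_eq_mul_right S.hq.pos h2

theorem Sm.h2M (S : Sm m α q M G) : 2 ∣ M := by
  obtain ⟨m', h1, -⟩ := S.hqm
  rw [h1]
  exact (dvd_pow_self 2 (by have := S.hα; omega)).trans (dvd_mul_right _ _)

theorem Sm.hexp (S : Sm m α q M G) : ∀ x : G, x ^ (M * q) = 1 := by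
  rw [S.hn]
  exact S.S.exp

theorem Sm.hexp1 (S : Sm m α q M G) : ∀ x : G, x ^ (M * q ^ 1) = 1 := by
  rw [pow_one]
  exact S.hexp

theorem Sm.opr (S : Sm m α q M G) {y : G} (h : y ^ q = 1) : OPr y := ⟨q, S.hq, S.hq2, h⟩

theorem Sm.h2q (S : Sm m α q M G) : Nat.Coprime 2 q :=
  (Nat.coprime_primes Nat.prime_two S.hq).2 S.hq2.symm

theorem Sm.r2 (S : Sm m α q M G) : Rad (2 ^ α) G = ⊥ := by
  have h1 := le_rad (G := G) (a := M) (b := q) S.hM S.hexp (Rad (2 ^ α) G) (fun x hx => by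
    obtain ⟨m', h1, -⟩ := S.hqm
    rw [h1, pow_mul, rad_pow hx, one_pow])
  rw [S.rM] at h1
  exact le_bot_iff.1 h1

/-- elements of `O_{q'}` of the centraliser of `g` are in `O_{q'}` of the finite subgroups
containing `g` -/
theorem Sm.in_rad (S : Sm m α q M G) {g e : G} (hg : g ^ q = 1)
    (he : e ∈ Tw.RK M (Subgroup.centralizer {g})) {K : Subgroup G} (hK : Finite K)
    (hKs : Group.IsSolvable K) (hgK : g ∈ K) (heK : e ∈ K) : (⟨e, heK⟩ : K) ∈ Rad M K := by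
  have hge : Commute g e := (Tw.mem_cent.1 (Tw.RK_le he)).symm
  refine t3q_fin (β := 1) S.hq S.hM (exp_sub S.hexp1 K) hKs (g := ⟨g, hgK⟩)
    (Subtype.ext (by simpa using hg)) (Subtype.ext (by simpa using Tw.RK_pow he))
    (Subtype.ext hge.eq) ?_
  rintro ⟨x, hx⟩ hxg
  have hxg' : Commute x g := congrArg Subtype.val hxg
  exact Subtype.ext (by simpa using Tw.cent_comm he hxg')

/-- elements of odd prime order -/
theorem t3_odd (S : Sm m α q M G) {g e : G} (hep : OPr e) (hg : g ^ q = 1)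
    (he : e ∈ Tw.RK M (Subgroup.centralizer {g})) : e = 1 := by
  have heM := Tw.RK_pow he
  have hge : Commute g e := (Tw.mem_cent.1 (Tw.RK_le he)).symm
  have key : ∀ k : G, ∀ x ∈ c2 e (k * e * k⁻¹), x ^ M = 1 := by
    intro k x hx
    obtain ⟨hK, hs⟩ := S.S.f1 (g * e) (k * e * k⁻¹) (opr_conj hep k)
    obtain ⟨K, hKd⟩ : ∃ K, K = c2 (g * e) (k * e * k⁻¹) := ⟨_, rfl⟩
    have h1 : g * e ∈ K := by rw [hKd]; exact Subgroup.subset_closure (by simp)
    have hyK : k * e * k⁻¹ ∈ K := by rw [hKd]; exact Subgroup.subset_closure (by simp)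
    rw [← hKd] at hK hs
    obtain ⟨hgK, heK⟩ := mem_of_mul hge.eq hg heM S.hM.symm K h1
    have h2 := S.in_rad hg he hK hs hgK heK
    have h4 := map_c2_sub (⟨e, heK⟩ : K) ⟨k * e * k⁻¹, hyK⟩
    rw [← h4] at hx
    obtain ⟨y, hy, rfl⟩ := hx
    have h7 := c2_rad S.hM (exp_sub S.hexp _) h2 (y := ⟨k * e * k⁻¹, hyK⟩)
      (Subtype.ext (conj_pow_one heM)) hy
    exact congrArg Subtype.val h7
  have h0 : e ∈ Rad M G := by
    refine ⟨heM, fun t ht => ?_⟩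
    obtain ⟨hE, hEs⟩ := S.S.f1' e t hep
    have heE : e ∈ c2 e t := Subgroup.subset_closure (by simp)
    have htE : t ∈ c2 e t := Subgroup.subset_closure (by simp)
    have h1 := bsfG S.hM (exp_sub S.hexp (c2 e t)) hEs (e := ⟨e, heE⟩) (Subtype.ext heM) (by
      intro k x hx
      apply Subtype.ext
      rw [Subgroup.coe_pow, Subgroup.coe_one]
      refine key k x ?_
      have h2 : (c2 (⟨e, heE⟩ : c2 e t) (k * ⟨e, heE⟩ * k⁻¹)).map (c2 e t).subtype =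
          c2 e ((k : G) * e * (k : G)⁻¹) := by
        unfold c2
        rw [MonoidHom.map_closure, Set.image_pair]
        rfl
      rw [← h2]
      exact ⟨x, hx, rfl⟩)
    have h2 := rad_mul h1 (z := ⟨t, htE⟩) (Subtype.ext ht)
    exact congrArg Subtype.val h2
  rw [S.rM] at h0
  exact h0

/-- involutions -/
theorem t3_two (S : Sm m α q M G) {g e : G} (he2 : e * e = 1) (hg : g ^ q = 1)
    (he : e ∈ Tw.RK M (Subgroup.centralizer {g})) : e = 1 := by
  by_contra he1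
  have heM := Tw.RK_pow he
  have hge : Commute g e := (Tw.mem_cent.1 (Tw.RK_le he)).symm
  have he' : e⁻¹ = e := inv_eq_of_mul_eq_one_left he2
  have hq := S.hq
  -- no element of order `q` is inverted
  have hA : ∀ u : G, u ^ q = 1 → e * u * e⁻¹ = u⁻¹ → u = 1 := by
    intro u hu heu
    obtain ⟨hK, hKs⟩ := S.S.f1 (g * e) u (S.opr hu)
    obtain ⟨K, hKd⟩ : ∃ K, K = c2 (g * e) u := ⟨_, rfl⟩
    have h1 : g * e ∈ K := by rw [hKd]; exact Subgroup.subset_closure (by simp)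
    have huK : u ∈ K := by rw [hKd]; exact Subgroup.subset_closure (by simp)
    rw [← hKd] at hK hKs
    obtain ⟨hgK, heK⟩ := mem_of_mul hge.eq hg heM S.hM.symm K h1
    have h2 := S.in_rad hg he hK hKs hgK heK
    have h3 : (⟨e, heK⟩ : K) * (⟨u, huK⟩ * (⟨e, heK⟩ : K)⁻¹ * ⟨u, huK⟩⁻¹) ∈ Rad M K :=
      mul_mem h2 ((rad_normal M).conj_mem _ (inv_mem h2) _)
    have h4 : (e * (u * e⁻¹ * u⁻¹)) ^ M = 1 := congrArg Subtype.val (rad_pow h3)
    have h5 : e * (u * e⁻¹ * u⁻¹) = (u ^ 2)⁻¹ := by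
      have e1 : e * (u * e⁻¹ * u⁻¹) = (e * u * e⁻¹) * u⁻¹ := by group
      rw [e1, heu, pow_two, mul_inv_rev]
    rw [h5, inv_pow, inv_eq_one, ← pow_mul] at h4
    exact W629.eq_one_of_coprime (a := 2 * M) (b := q) (Nat.Coprime.mul_left S.h2q S.hM) h4 hu
  -- products with involutions
  have hB : ∀ j : G, j * j = 1 → (e * j) ^ M = 1 := by
    intro j hj
    have hj' : j⁻¹ = j := inv_eq_of_mul_eq_one_left hj
    have hwu : e * (e * j) * e⁻¹ = (e * j)⁻¹ := by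
      rw [mul_inv_rev, hj', he', ← mul_assoc, he2, one_mul]
    refine hA _ ?_ ?_
    · rw [← pow_mul]
      exact S.hexp _
    · rw [← conj_pow, hwu, inv_pow]
  obtain ⟨v, hvp, hv1, hev⟩ := invol S.S S.r2 he2 he1
  obtain ⟨s, hs, hs2, hvs⟩ := id hvp
  have hsq : s ≠ q := by
    rintro rfl
    exact hv1 (hA v hvs hev)
  have hvM : v ^ M = 1 := by
    refine W629.eq_one_of_coprime (a := s) (b := q) ((Nat.coprime_primes hs hq).2 hsq) ?_ ?_
    · rw [← pow_mul, mul_comm, pow_mul, hvs, one_pow]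
    · rw [← pow_mul]
      exact S.hexp _
  obtain ⟨k, hk⟩ := nice_ex S.S S.hM S.hn S.rM hvp hvM hv1
  obtain ⟨m1, m2, m3, m4, m5⟩ := gens S.hM (x := v) (k := 1) (g := k) (c := e) hvM
    (one_pow _) (by rw [mul_one, one_mul]) ⟨s - 1, by
      rw [hev, inv_pow, inv_eq_iff_mul_eq_one, ← pow_succ, Nat.sub_add_cancel hs.one_lt.le, hvs]⟩
    hk.1
  have hv1p : OPr (v * 1) := by
    rw [mul_one]
    exact hvp
  obtain ⟨hKf, hKs⟩ := S.S.f1' _ (k * e) hv1p
  obtain ⟨K, hK⟩ : ∃ K, K = c2 (v * 1) (k * e) := ⟨_, rfl⟩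
  rw [← hK] at m1 m3 m4 hKf hKs
  have h1 : (⟨e, m4⟩ : K) ∈ Rad M K := by
    refine bsfG S.hM (exp_sub S.hexp K) hKs (Subtype.ext heM) fun t x hx => ?_
    refine dih (w := (⟨e, m4⟩ : K)) (Subtype.ext he2) ?_ S.h2M ?_ x hx
    · have e1 : t * (⟨e, m4⟩ : K) * t⁻¹ * (t * ⟨e, m4⟩ * t⁻¹) =
          t * ((⟨e, m4⟩ : K) * ⟨e, m4⟩) * t⁻¹ := by group
      have e2 : (⟨e, m4⟩ : K) * ⟨e, m4⟩ = 1 := Subtype.ext he2
      rw [e1, e2, mul_one, mul_inv_cancel]
    · apply Subtype.ext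
      refine hB ((t : G) * e * (t : G)⁻¹) ?_
      have e1 : (t : G) * e * (t : G)⁻¹ * ((t : G) * e * (t : G)⁻¹) =
          (t : G) * (e * e) * (t : G)⁻¹ := by group
      rw [e1, he2, mul_one, mul_inv_cancel]
  have h3 : (⟨e, m4⟩ : K) * (⟨v, m1⟩ * (⟨e, m4⟩ : K)⁻¹ * ⟨v, m1⟩⁻¹) ∈ Rad M K :=
    mul_mem h1 ((rad_normal M).conj_mem _ (inv_mem h1) _)
  have h4 : (⟨e, m4⟩ : K) * (⟨v, m1⟩ * (⟨e, m4⟩ : K)⁻¹ * ⟨v, m1⟩⁻¹) = (⟨v, m1⟩ ^ 2)⁻¹ := by
    apply Subtype.ext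
    change e * (v * e⁻¹ * v⁻¹) = (v ^ 2)⁻¹
    have e1 : e * (v * e⁻¹ * v⁻¹) = (e * v * e⁻¹) * v⁻¹ := by group
    rw [e1, hev, pow_two, mul_inv_rev]
  rw [h4, inv_mem_iff] at h3
  have h5 : v ^ 2 ≠ 1 := by
    intro h
    exact hv1 (W629.eq_one_of_coprime ((Nat.coprime_primes hs Nat.prime_two).2 hs2) hvs h)
  obtain ⟨m', hm'⟩ := pow_gen hs hvs h5
  have h6 : (⟨v, m1⟩ : K) ∈ Rad M K := by
    have h7 := pow_mem h3 m'
    have h8 : ((⟨v, m1⟩ : K) ^ 2) ^ m' = ⟨v, m1⟩ := Subtype.ext hm'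
    rwa [h8] at h7
  refine nice_false hk (A := (Rad M K).map K.subtype) ?_ ?_ ⟨_, h6, rfl⟩
  · rintro _ ⟨x, hx, rfl⟩
    exact congrArg Subtype.val (rad_pow hx)
  · rintro _ ⟨x, hx, rfl⟩
    exact ⟨⟨k, m3⟩ * x * ⟨k, m3⟩⁻¹, (rad_normal M).conj_mem x hx _, rfl⟩

/-- `O_{q'}` of the centraliser of an element of order `q` -/
theorem t3a (S : Sm m α q M G) {g e : G} (hg : g ^ q = 1)
    (he : e ∈ Tw.RK M (Subgroup.centralizer {g})) : e = 1 := by
  have heM := Tw.RK_pow he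
  by_contra he1
  have hM0 : 0 < M := by
    rcases Nat.eq_zero_or_pos M with h | h
    · exfalso
      have h1 := S.hn
      rw [h, zero_mul] at h1
      exact S.S.hn0 h1.symm
    · exact h
  have ho1 : orderOf e ≠ 1 := fun h => he1 (orderOf_eq_one_iff.1 h)
  have ho0 : 0 < orderOf e := Nat.pos_of_dvd_of_pos (orderOf_dvd_of_pow_eq_one heM) hM0
  obtain ⟨r, hr, c, hc⟩ := Nat.exists_prime_and_dvd ho1
  have hc0 : 0 < c := by
    rcases Nat.eq_zero_or_pos c with rfl | h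
    · rw [mul_zero] at hc
      omega
    · exact h
  have h1 : (e ^ c) ^ r = 1 := by
    rw [← pow_mul, mul_comm, ← hc, pow_orderOf_eq_one]
  have h2 : e ^ c ≠ 1 := by
    intro h
    have h1 := Nat.le_of_dvd hc0 (orderOf_dvd_of_pow_eq_one h)
    have h2 := hr.two_le
    rw [hc] at h1
    nlinarith
  have h3 : e ^ c ∈ Tw.RK M (Subgroup.centralizer {g}) := pow_mem he c
  by_cases hr2 : r = 2
  · subst hr2
    rw [pow_two] at h1
    exact h2 (t3_two S h1 hg h3)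
  · exact h2 (t3_odd S ⟨r, hr, hr2, h1⟩ hg h3)

/-- a `q'`-element commuting with `s` which lies in `O_{q'}` of all finite subgroups containing
`s` and `y` -/
theorem t4a (S : Sm m α q M G) {s y τ : G} (hy : OPr y) (hs : s ^ q = 1) (hτ : Commute τ s)
    (hall : ∀ K : Subgroup G, Finite K → Group.IsSolvable K → s ∈ K → y ∈ K →
      τ ∈ Tw.RK M K) : τ = 1 := by
  apply t3a S hs
  refine Tw.mem_RK.2 ⟨Tw.mem_cent.2 hτ, ?_, ?_⟩
  · have := Tw.RK_pow (hall (c2 s y) (S.S.f1 _ _ hy).1 (S.S.f1 _ _ hy).2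
      (Subgroup.subset_closure (by simp)) (Subgroup.subset_closure (by simp)))
    exact Subtype.ext (by simpa using this)
  · rintro ⟨z, hz⟩ hzM
    have hzM' : z ^ M = 1 := by simpa using congrArg Subtype.val hzM
    have hzs : Commute s z := (Tw.mem_cent.1 hz).symm
    have h1 : s * z ∈ c2 (s * z) y := Subgroup.subset_closure (by simp)
    have hyK : y ∈ c2 (s * z) y := Subgroup.subset_closure (by simp)
    obtain ⟨hsK, hzK⟩ := mem_of_mul hzs.eq hs hzM' S.hM.symm _ h1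
    have := Tw.RK_mul (hall _ (S.S.f1 _ _ hy).1 (S.S.f1 _ _ hy).2 hsK hyK) hzK hzM'
    exact Subtype.ext (by simpa using this)

end Pool.Agent.V5helper30.OE
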