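import Mathlib
import Pool.Agent.V5helper30.OE.Cen

set_option autoImplicit false

/-!
# One generator of odd prime order, even exponents: primes dividing the exponent once
-/

namespace Pool.Agent.V5helper30.OE

open Pool.Agent.H32BU Pool.Agent.W629 Pool.Agent.TH69.Mtn Pool.Agent.TH69.Od Pool.Agent.TH69.Og
open Pool.Agent.TH69.Oh Pool.Agent.TH69.Ok Pool.Agent.TH69.Pq Pool.Agent.N6.Pf
open Pool.Agent.V5helper30.OP (OPr OPP cz ab_core)

variable {G : Type} [Group G] {m α q M : ℕ}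

/-! ### the prime three -/

/-- commutators centralise the elements commuting with `s`, up to `3`-elements -/
theorem ptO {G : Type} [Group G] {m α M : ℕ} (S : Sm m α 3 M G)
    {s s2 y c t : G} (hyp : y ^ 3 = 1) (hs : s ^ 3 = 1) (hs2 : s2 ^ 3 = 1)
    (hss : (s * s2) ^ 3 = 1) (hc : s2⁻¹ * s * s2 = s * c) (hcs : Commute c s)
    (hts : Commute t s) (hs2y : s2 ∈ c2 s y) (hty : t ∈ c2 s y) :
    (t * c * t⁻¹ * c⁻¹) ^ 3 = 1 := by
  have hM := S.hM
  have hexp : ∀ x : G, x ^ (M * 3) = 1 := S.hexp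
  obtain ⟨a, b, ⟨a', ha'⟩, ⟨b', hb'⟩, ha, hb, hab⟩ := crt hM
  obtain ⟨x, hx⟩ : ∃ x, x = t * c * t⁻¹ * c⁻¹ := ⟨_, rfl⟩
  obtain ⟨τ, hτ⟩ : ∃ τ, τ = x ^ b := ⟨_, rfl⟩
  have hτM : τ ^ M = 1 := by
    rw [hτ, hb', ← pow_mul, show 3 * b' * M = (M * 3) * b' from by ring, pow_mul, hexp,
      one_pow]
  have hτs0 : Commute s (t * c * t⁻¹ * c⁻¹) :=
    ((hts.symm.mul_right hcs.symm).mul_right hts.symm.inv_right).mul_right hcs.symm.inv_right
  have hτs : Commute τ s := by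
    rw [hτ, hx]
    exact (hτs0.pow_right b).symm
  have h1 : τ = 1 := by
    refine t4a S (y := y) (S.opr hyp) hs hτs fun K hK hKs hsK hyK => ?_
    have hle : c2 s y ≤ K := c2_le hsK hyK
    have hs2K := hle hs2y
    have htK := hle hty
    have hcK : c ∈ K := by
      have e : c = s⁻¹ * (s2⁻¹ * s * s2) := by rw [hc]; group
      rw [e]
      exact mul_mem (inv_mem hsK) (mul_mem (mul_mem (inv_mem hs2K) hsK) hs2K)
    have hxK : x ∈ K := by
      rw [hx]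
      exact mul_mem (mul_mem (mul_mem htK hcK) (inv_mem htK)) (inv_mem hcK)
    have hτK : τ ∈ K := by
      rw [hτ]
      exact pow_mem hxK b
    refine Tw.mem_RK.2 ⟨hτK, ?_⟩
    refine pt_core hM (exp_sub hexp K) hKs (s := ⟨s, hsK⟩) (s2 := ⟨s2, hs2K⟩)
      (c := ⟨c, hcK⟩) (t := ⟨t, htK⟩) (k := b) (Subtype.ext hs) (Subtype.ext hs2) (Subtype.ext hss)
      (Subtype.ext hc) (Subtype.ext hcs) (Subtype.ext hts) ?_ (Subtype.ext hτM)
    apply Subtype.ext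
    change τ = (t * c * t⁻¹ * c⁻¹) ^ b
    rw [hτ, hx]
  rw [← hx]
  have h2 := hab x (hexp x)
  rw [← hτ, h1, mul_one] at h2
  rw [← h2, ← pow_mul, ha', show M * a' * 3 = (M * 3) * a' from by ring, pow_mul, hexp,
    one_pow]

/-- lifting elements of order `q` -/
theorem lift_q (S : Sm m α q M G) {K : Subgroup G} {F : Type} [Group F] (π : K →* F)
    (hπ : Function.Surjective π) {h : F} (hh : h ^ q = 1) :
    ∃ y : K, y ^ q = 1 ∧ π y = h := by
  obtain ⟨a, -, ⟨a', ha'⟩, -, ha, -, -⟩ := crt S.hM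
  obtain ⟨y0, hy0⟩ := hπ h
  refine ⟨y0 ^ a, ?_, ?_⟩
  · rw [ha', ← pow_mul, show M * a' * q = (M * q) * a' from by ring, pow_mul,
      exp_sub S.hexp K, one_pow]
  · rw [map_pow, hy0, ha h hh]

/-- commutators centralise the elements commuting with `s`, up to `3`-elements, in images -/
theorem ptfO {G : Type} [Group G] {m α M : ℕ} (S : Sm m α 3 M G)
    {F : Type} [Group F] (hI : Im G F) {s h s2 t c : F} (hh : h ^ 3 = 1)
    (hs : s ^ 3 = 1)
    (D : Subgroup F) (hD : ∀ d ∈ D, d ^ 3 = 1) (hsD : s ∈ D) (hs2D : s2 ∈ D) (hs2 : s2 ∈ c2 s h)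
    (ht : t ∈ c2 s h) (htM : t ^ M = 1) (hts : Commute t s) (hc : c = s⁻¹ * (s2⁻¹ * s * s2)) :
    (t * c * t⁻¹ * c⁻¹) ^ 3 = 1 := by
  classical
  have hM := S.hM
  obtain ⟨K, hK, hKs, π, hπ⟩ := hI
  obtain ⟨a, b, ⟨a', ha'⟩, ⟨b', hb'⟩, ha, hb, hab⟩ := crt hM
  have hexp : ∀ x : K, x ^ (M * 3) = 1 := exp_sub S.hexp K
  obtain ⟨y, hyr, hy⟩ := lift_q S π hπ hh
  have hyPP : (y : G) ^ 3 = 1 := congrArg Subtype.val hyr
  have hex : ∃ d, ∃ s1 : K, s1 ^ 3 = 1 ∧ π s1 = s ∧ Nat.card (c2 s1 y) = d := by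
    obtain ⟨s0, hs0⟩ := hπ s
    refine ⟨_, s0 ^ a, ?_, ?_, rfl⟩
    · rw [← pow_mul, ha', show M * a' * 3 = (M * 3) * a' from by ring, pow_mul, hexp,
        one_pow]
    · rw [map_pow, hs0, ha s hs]
  obtain ⟨s1, hs1, hs1s, hd⟩ := Nat.find_spec hex
  have hmin := fun d (hd : d < Nat.find hex) => Nat.find_min hex hd
  have hmap : (c2 s1 y).map π = c2 s h := by rw [map_c2', hs1s, hy]
  have hst : s * t ∈ (c2 s1 y).map π := by
    rw [hmap]
    exact mul_mem (Subgroup.subset_closure (by simp)) ht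
  obtain ⟨g, hg, hgst⟩ := hst
  -- the lifts
  obtain ⟨s', hs'⟩ : ∃ s', s' = g ^ a := ⟨_, rfl⟩
  obtain ⟨t', ht'⟩ : ∃ t', t' = g ^ b := ⟨_, rfl⟩
  have hs'3 : s' ^ 3 = 1 := by
    rw [hs', ← pow_mul, ha', show M * a' * 3 = (M * 3) * a' from by ring, pow_mul, hexp,
      one_pow]
  have hπs' : π s' = s := by
    rw [hs', map_pow, hgst, hts.symm.mul_pow, ha s hs, ha', pow_mul, htM, one_pow, mul_one]
  have hπt' : π t' = t := by
    rw [ht', map_pow, hgst, hts.symm.mul_pow, hb t htM, hb', pow_mul, hs, one_pow, one_mul]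
  have hts' : Commute t' s' := by
    rw [hs', ht']
    exact (Commute.refl g).pow_pow b a
  have hs'H : s' ∈ c2 s1 y := by
    rw [hs']
    exact pow_mem hg a
  have ht'H : t' ∈ c2 s1 y := by
    rw [ht']
    exact pow_mem hg b
  have hle : c2 s' y ≤ c2 s1 y := c2_le hs'H (Subgroup.subset_closure (by simp))
  have heq : c2 s' y = c2 s1 y := by
    refine Subgroup.eq_of_le_of_card_ge hle ?_
    by_contra hlt
    push Not at hlt
    rw [hd] at hlt
    exact hmin _ hlt ⟨s', hs'3, hπs', rfl⟩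
  obtain ⟨Q, hQ1, hQ2, s2', hQ3, hs2'H, hπs2'⟩ := lift_three π hM hexp (c2 s' y) (s := s') hs'3
    (Subgroup.subset_closure (by simp)) D hD (by rw [hπs']; exact hsD) hs2D (by
      rw [heq, hmap]
      exact hs2)
  rw [← heq] at ht'H
  obtain ⟨c', hc'⟩ : ∃ c', c' = s'⁻¹ * (s2'⁻¹ * s' * s2') := ⟨_, rfl⟩
  have hπc' : π c' = c := by
    rw [hc', hc, map_mul, map_mul, map_mul, map_inv, map_inv, hπs', hπs2']
  have hcs : Commute c' s' := by
    have h1 := Tw.comm_conj (a := s') (b := s') (c := s2') (hQ2 _ hQ3) (hQ2 _ (mul_mem hQ1 hQ3))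
      (hQ2 _ (mul_mem hQ1 hQ3)) (hQ2 _ (mul_mem (mul_mem hQ1 hQ1) hQ3)) (Commute.refl _)
    rw [hc']
    exact ((Commute.refl s').inv_right.mul_right h1).symm
  have hmapG : ∀ x ∈ c2 s' y, (x : G) ∈ c2 (s' : G) (y : G) := by
    intro x hx
    have h1 := map_c2' K.subtype s' y
    change (x : G) ∈ c2 (K.subtype s') (K.subtype y)
    rw [← h1]
    exact ⟨x, hx, rfl⟩
  have h1 := ptO S (s := (s' : G)) (s2 := (s2' : G)) (y := (y : G)) (c := (c' : G))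
    (t := (t' : G)) hyPP (congrArg Subtype.val hs'3) (congrArg Subtype.val (hQ2 _ hQ3))
    (congrArg Subtype.val (hQ2 _ (mul_mem hQ1 hQ3))) (by
      rw [hc']
      change _ = (s' : G) * ((s' : G)⁻¹ * ((s2' : G)⁻¹ * s' * s2'))
      group) (congrArg Subtype.val hcs) (congrArg Subtype.val hts') (hmapG _ hs2'H)
    (hmapG _ ht'H)
  have h2 : (t' * c' * t'⁻¹ * c'⁻¹) ^ 3 = 1 := Subtype.ext h1
  have h3 := congrArg π h2
  rw [map_one, map_pow, map_mul, map_mul, map_mul, map_inv, map_inv, hπt', hπc'] at h3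
  exact h3

theorem cent_cO {G : Type} [Group G] {m α M : ℕ} (S : Sm m α 3 M G)
    {F : Type} [Group F] [Finite F]
    (hI : Im G F) (hF : ∀ x : F, x ^ (M * 3) = 1) (V : Subgroup F) [hVn : V.Normal]
    (hab : ∀ v ∈ V, ∀ w ∈ V, v * w = w * v) (hpow : ∀ v ∈ V, v ^ 2 = 1)
    {s h : F} (hh : h ^ 3 = 1) (hs : s ^ 3 = 1) (D : Subgroup (F ⧸ V)) (hD : ∀ d ∈ D, d ^ 3 = 1)
    (hsD : (s : F ⧸ V) ∈ D) {s2 : F ⧸ V} (hs2D : s2 ∈ D)
    (hs2 : s2 ∈ (c2 s h).map (QuotientGroup.mk' V)) :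
    ∃ c r : F, c ∈ c2 s h ∧ r ∈ c2 s h ∧ c ^ 3 = 1 ∧ (r : F ⧸ V) = s2 ∧
      c = s⁻¹ * (r⁻¹ * s * r) ∧ Commute c s ∧ Commute c r ∧
      ∀ t ∈ V, t ∈ c2 s h → t * c = c * t := by
  have hM := S.hM
  have h2M : 2 ∣ M := S.h2M
  have hsH : s ∈ c2 s h := Subgroup.subset_closure (by simp)
  obtain ⟨Q, hsQ, hQ, r, hrQ, hrH, hrs2⟩ := lift_three (QuotientGroup.mk' V) hM hF (c2 s h) hs hsH
    D hD hsD hs2D hs2
  have h1 := Tw.comm_conj (a := s) (b := s) (c := r) (hQ _ hrQ) (hQ _ (mul_mem hsQ hrQ))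
    (hQ _ (mul_mem hsQ hrQ)) (hQ _ (mul_mem (mul_mem hsQ hsQ) hrQ)) (Commute.refl _)
  have h2 := Tw.comm_conj (a := r) (b := r) (c := s) (hQ _ hsQ) (hQ _ (mul_mem hrQ hsQ))
    (hQ _ (mul_mem hrQ hsQ)) (hQ _ (mul_mem (mul_mem hrQ hrQ) hsQ)) (Commute.refl _)
  obtain ⟨c, hc⟩ : ∃ c, c = s⁻¹ * (r⁻¹ * s * r) := ⟨_, rfl⟩
  have hcQ : c ∈ Q := by
    rw [hc]
    exact mul_mem (inv_mem hsQ) (mul_mem (mul_mem (inv_mem hrQ) hsQ) hrQ)
  have hcH : c ∈ c2 s h := by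
    rw [hc]
    exact mul_mem (inv_mem hsH) (mul_mem (mul_mem (inv_mem hrH) hsH) hrH)
  have hcs : Commute c s := by
    rw [hc]
    exact ((Commute.refl s).inv_right.mul_right h1).symm
  have hcr : Commute c r := by
    have e : c = (s⁻¹ * r * s)⁻¹ * r := by rw [hc]; group
    rw [e]
    exact (h2.symm.inv_left).mul_left (Commute.refl r)
  refine ⟨c, r, hcH, hrH, hQ c hcQ, hrs2, hc, hcs, hcr, fun t ht htH => ?_⟩
  -- elements commuting with `s`
  have key : ∀ t ∈ V, t ∈ c2 s h → Commute t s → Commute t c := by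
    intro t ht htH hts
    have htM : t ^ M = 1 := by
      obtain ⟨k, hk⟩ := h2M
      rw [hk, pow_mul, hpow t ht, one_pow]
    have h3 := ptfO S hI hh hs Q hQ hsQ hrQ hrH htH htM hts hc
    have h4 : t * c * t⁻¹ * c⁻¹ ∈ V := by
      have := mul_mem ht (hVn.conj_mem _ (inv_mem ht) c)
      have e : t * (c * t⁻¹ * c⁻¹) = t * c * t⁻¹ * c⁻¹ := by group
      rwa [e] at this
    have h5 := W629.eq_one_of_coprime (by norm_num) (hpow _ h4) h3
    rw [mul_inv_eq_one, mul_inv_eq_iff_eq_mul] at h5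
    exact h5
  have conj : ∀ g : F, ∀ t ∈ V, t ∈ c2 s h → Commute t (r⁻¹ * g * r) →
      (∀ t ∈ V, t ∈ c2 s h → Commute t g → Commute t c) → Commute t c := by
    intro g t ht htH htg hg
    have h3 := hg (r * t * r⁻¹) (hVn.conj_mem t ht r) (mul_mem (mul_mem hrH htH) (inv_mem hrH)) (by
      have h4 := htg.eq
      change r * t * r⁻¹ * g = g * (r * t * r⁻¹)
      calc r * t * r⁻¹ * g = r * (t * (r⁻¹ * g * r)) * r⁻¹ := by group
        _ = r * (r⁻¹ * g * r * t) * r⁻¹ := by rw [h4]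
        _ = g * (r * t * r⁻¹) := by group)
    have h4 := h3.eq
    have h5 : r⁻¹ * c * r = c := by
      rw [mul_assoc, hcr.eq]
      group
    change t * c = c * t
    calc t * c = r⁻¹ * (r * t * r⁻¹ * (r * c * r⁻¹)) * r := by group
      _ = r⁻¹ * (r * t * r⁻¹ * c) * r := by
          have h6 : r * c * r⁻¹ = c := by rw [← hcr.eq]; group
          rw [h6]
      _ = r⁻¹ * (c * (r * t * r⁻¹)) * r := by rw [h4]
      _ = (r⁻¹ * c * r) * t := by group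
      _ = c * t := by rw [h5]
  have e1 : s * c = r⁻¹ * s * r := by rw [hc]; group
  have e2 : s * c * c = r⁻¹ * (s * c) * r := by
    have h3 : r⁻¹ * (s * c) * r = (r⁻¹ * s * r) * (r⁻¹ * c * r) := by group
    have h5 : r⁻¹ * c * r = c := by
      rw [mul_assoc, hcr.eq]
      group
    rw [h3, h5, ← e1]
  have key1 : ∀ t ∈ V, t ∈ c2 s h → Commute t (s * c) → Commute t c := by
    intro t ht htH h3
    rw [e1] at h3
    exact conj s t ht htH h3 key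
  have key2 : ∀ t ∈ V, t ∈ c2 s h → Commute t (s * c * c) → Commute t c := by
    intro t ht htH h3
    rw [e2] at h3
    exact conj (s * c) t ht htH h3 key1
  have h6 := fix3 (F := c2 s h) (V.subgroupOf (c2 s h)) (s := ⟨s, hsH⟩) (c := ⟨c, hcH⟩)
    (fun v hv w hw => Subtype.ext (hab v hv w hw)) (Subtype.ext hs) (Subtype.ext (hQ c hcQ))
    (Subtype.ext hcs.eq)
    (fun t ht hts => Subtype.ext (key t ht t.2 (congrArg Subtype.val hts.eq)).eq)
    (fun t ht hts => Subtype.ext (key1 t ht t.2 (congrArg Subtype.val hts.eq)).eq)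
    (fun t ht hts => Subtype.ext (key2 t ht t.2 (congrArg Subtype.val hts.eq)).eq)
    (u := ⟨t, htH⟩) ht (Subtype.ext (hpow t ht))
  exact congrArg Subtype.val h6.eq

/-- elements of order `q` lie in `O_{q',q}` -/
theorem ssq (S : Sm m α q M G) (hex : ∀ k : ℕ, 1 ≤ k → 2 ^ k ≠ q - 1) {x : G} (hx : x ^ q = 1) :
    SG (q ^ 1) M x := by
  have hq := S.hq
  have h2q : Nat.Coprime q M := S.hM.symm
  have hpm : ¬ q ∣ M := (Nat.Prime.coprime_iff_not_dvd hq).1 h2q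
  have hm : M ≠ 0 := by
    intro h
    have h1 := S.hn
    rw [h, zero_mul] at h1
    exact S.S.hn0 h1.symm
  have hexp : ∀ x : G, x ^ (q ^ 1 * M) = 1 := by
    rw [pow_one, mul_comm]
    exact S.hexp
  have hx1 : x ^ q ^ 1 = 1 := by rw [pow_one]; exact hx
  have hex' : ∀ r : ℕ, r.Prime → r ∣ M → ∀ μ, 1 ≤ μ → μ ≤ 1 → ∀ k, 1 ≤ k →
      r ^ k ≠ q ^ μ - 1 := by
    intro r hr hr2 μ h1 h2 k hk
    have h4 : μ = 1 := by omega
    rw [h4, pow_one]
    by_cases h3 : r = 2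
    · rw [h3]
      exact hex k hk
    · intro h
      obtain ⟨c, hc⟩ := (hr.odd_of_ne_two h3).pow (n := k)
      obtain ⟨d, hd⟩ := hq.odd_of_ne_two S.hq2
      omega
  refine ⟨hx1, fun E hE hEs hzE => ?_⟩
  have key : ∀ f : G, TT (q ^ 1) M (c2 x f) x := by
    intro f
    obtain ⟨hfin, hsol⟩ := S.S.f1' x f (S.opr hx)
    have hxm : x ∈ c2 x f := Subgroup.subset_closure (by simp)
    have h1 := hhBG (α := 1) hq hpm hm le_rfl hex' (exp_sub hexp (c2 x f)) hsol (x := ⟨x, hxm⟩)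
      (Subtype.ext hx1)
    have h2 := h1.map (c2 x f).subtype
    rw [← MonoidHom.range_eq_map, Subgroup.range_subtype] at h2
    have h3 : (c2 x f).subtype ((⟨x, hxm⟩ : c2 x f) ^ q ^ (1 - 1)) = x := by
      rw [Nat.sub_self, pow_zero, pow_one]
      rfl
    rw [h3] at h2
    exact h2
  have h4 := bsG hq h2q (exp_sub hexp E) hEs (z := ⟨x, hzE⟩) (Subtype.ext hx1) (by
    intro f
    refine TT.comap E.subtype E.subtype_injective ?_
    have h5 : (c2 (⟨x, hzE⟩ : E) f).map E.subtype = c2 x (f : G) := by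
      unfold c2
      rw [MonoidHom.map_closure, Set.image_pair]
      rfl
    rw [h5]
    exact key f)
  have h5 := h4.map E.subtype
  rw [← MonoidHom.range_eq_map, Subgroup.range_subtype] at h5
  exact h5

/-- the centraliser lemma -/
theorem cqO (S : Sm m α q M G) {s y τ : G} (hy : OPr y) (hs : SG (q ^ 1) M s)
    (hτN : τ ∈ Ncl s y) (hτs : Commute τ s) (hτ : τ ^ M = 1) : τ = 1 := by
  have hMQ : Nat.Coprime M (q ^ 1) := by
    rw [pow_one]
    exact S.hM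
  have hs1 : s ^ q = 1 := by
    have := hs.1
    rwa [pow_one] at this
  refine t4a S (y := y) hy hs1 hτs fun K hK hKs hsK hyK => ?_
  have hle : c2 s y ≤ K := c2_le hsK hyK
  obtain ⟨A, B, h2, h3, h4, h5, h6⟩ := hs.2 K hK hKs hsK
  have hτB : τ ∈ B := Ncl_le (fun g hg x hx => h3 g (hle hg) x hx) h6 hτN
  have hτA : τ ∈ A := mem_of_pow hMQ hτ (h5 τ hτB)
  have hτK : τ ∈ K := hle (Ncl_le_c2 s y hτN)
  have hn1 : (A.subgroupOf K).Normal := ⟨fun x hx g => h2 g g.2 x hx⟩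
  have h7 := le_rad (G := K) hMQ (exp_sub S.hexp1 K) (A.subgroupOf K)
    (fun x hx => Subtype.ext (h4 x hx))
  exact Tw.mem_RK.2 ⟨hτK, h7 hτA⟩

/-- the centraliser lemma in images of finite subgroups -/
theorem cqfO (S : Sm m α q M G) (hS : ∀ s : G, s ^ q = 1 → SG (q ^ 1) M s)
    {F : Type} [Group F] (hI : Im G F) {s h τ : F} (hh : h ^ q = 1) (hs : s ^ q = 1)
    (hτN : τ ∈ Ncl s h) (hτs : Commute τ s) (hτ : τ ^ M = 1) : τ = 1 := by
  classical
  have hM := S.hM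
  obtain ⟨K, hK, hKs, π, hπ⟩ := hI
  obtain ⟨a, b, ⟨a', ha'⟩, ⟨b', hb'⟩, ha, hb, hab⟩ := crt hM
  have hexp : ∀ x : K, x ^ (M * q) = 1 := exp_sub S.hexp K
  have hpa : ∀ x : K, (x ^ a) ^ q = 1 := by
    intro x
    rw [← pow_mul, ha', show M * a' * q = (M * q) * a' from by ring, pow_mul, hexp,
      one_pow]
  obtain ⟨y, hyr, hy⟩ := lift_q S π hπ hh
  have hyPP : OPr (y : G) := S.opr (congrArg Subtype.val hyr)
  have hex : ∃ d, ∃ s1 : K, s1 ^ q = 1 ∧ π s1 = s ∧ Nat.card (Ncl s1 y) = d := by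
    obtain ⟨s0, hs0⟩ := hπ s
    refine ⟨_, s0 ^ a, hpa s0, ?_, rfl⟩
    rw [map_pow, hs0, ha s hs]
  obtain ⟨s1, hs1, hs1s, hd⟩ := Nat.find_spec hex
  have hmin := fun d (hd : d < Nat.find hex) => Nat.find_min hex hd
  have hmap : (Ncl s1 y).map π = Ncl s h := by rw [map_Ncl, hs1s, hy]
  have hst : s * τ ∈ (Ncl s1 y).map π := by
    rw [hmap]
    exact mul_mem (self_mem_Ncl s h) hτN
  obtain ⟨g, hg, hgst⟩ := hst
  -- the lifts
  obtain ⟨s', hs'⟩ : ∃ s', s' = g ^ a := ⟨_, rfl⟩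
  obtain ⟨t', ht'⟩ : ∃ t', t' = g ^ b := ⟨_, rfl⟩
  have hs'3 : s' ^ q = 1 := by
    rw [hs']
    exact hpa g
  have ht'M : t' ^ M = 1 := by
    rw [ht', hb', ← pow_mul, show q * b' * M = (M * q) * b' from by ring, pow_mul, hexp,
      one_pow]
  have hπs' : π s' = s := by
    rw [hs', map_pow, hgst, hτs.symm.mul_pow, ha s hs, ha', pow_mul, hτ, one_pow, mul_one]
  have hπt' : π t' = τ := by
    rw [ht', map_pow, hgst, hτs.symm.mul_pow, hb τ hτ, hb', pow_mul, hs, one_pow, one_mul]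
  have hts' : Commute t' s' := by
    rw [hs', ht']
    exact (Commute.refl g).pow_pow b a
  have hs'N : s' ∈ Ncl s1 y := by
    rw [hs']
    exact pow_mem hg a
  have ht'N : t' ∈ Ncl s1 y := by
    rw [ht']
    exact pow_mem hg b
  have hle : Ncl s' y ≤ Ncl s1 y := Ncl_mono hs'N
  have heq : Ncl s' y = Ncl s1 y := by
    refine Subgroup.eq_of_le_of_card_ge hle ?_
    by_contra hlt
    push Not at hlt
    rw [hd] at hlt
    exact hmin _ hlt ⟨s', hs'3, hπs', rfl⟩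
  rw [← heq] at ht'N
  have h1 : ((t' : K) : G) ∈ Ncl ((s' : K) : G) (y : G) := by
    have h2 := map_Ncl K.subtype s' y
    change K.subtype t' ∈ Ncl (K.subtype s') (K.subtype y)
    rw [← h2]
    exact ⟨t', ht'N, rfl⟩
  have h2 := cqO S hyPP (hS s' (congrArg Subtype.val hs'3)) h1
    (congrArg Subtype.val hts'.eq) (congrArg Subtype.val ht'M)
  have h3 : t' = 1 := Subtype.ext h2
  rw [← hπt', h3, map_one]

/-- central commutators are trivial, the prime three -/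
theorem hcc3 {G : Type} [Group G] {m α M : ℕ} (S : Sm m α 3 M G)
    {F : Type} [Group F] [Finite F]
    (hI : Im G F) (hF : ∀ x : F, x ^ (M * 3) = 1) (V L : Subgroup F) [hVn : V.Normal]
    (_hVL : V ≤ L)
    (hab : ∀ v ∈ V, ∀ w ∈ V, v * w = w * v) (hpow : ∀ v ∈ V, v ^ 2 = 1)
    (hLq : ∀ y ∈ L, y ^ 3 ∈ V) (hC : ∀ y ∈ L, (∀ v ∈ V, y * v = v * y) → y ∈ V)
    {s h : F} (hsL : s ∈ L) (hhL : h ∈ L) (hs : s ^ 3 = 1) (hh : h ^ 3 = 1) :
    s⁻¹ * h⁻¹ * s * h ∈ V := by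
  have hcL : s⁻¹ * h⁻¹ * s * h ∈ L :=
    mul_mem (mul_mem (mul_mem (inv_mem hsL) (inv_mem hhL)) hsL) hhL
  refine hC _ hcL ?_
  refine cz V hab hpow (k := 3) (by norm_num) (hLq _ hcL) fun v hv => ?_
  obtain ⟨y, hy⟩ : ∃ y, y = v * h * v⁻¹ := ⟨_, rfl⟩
  have hy3 : y ^ 3 = 1 := by rw [hy, conj_pow, hh, mul_one, mul_inv_cancel]
  have hyV : (y : F ⧸ V) = h := by
    rw [hy, QuotientGroup.mk_mul, QuotientGroup.mk_mul, QuotientGroup.mk_inv,
      (QuotientGroup.eq_one_iff v).2 hv, one_mul, inv_one, mul_one]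
  have hyH : y ∈ c2 s y := Subgroup.subset_closure (by simp)
  obtain ⟨c, r, hcH, hrH, -, hr, hc, hcs, hcr, hct⟩ := cent_cO S hI hF V hab hpow (s := s)
    (h := y) hy3 hs (L.map (QuotientGroup.mk' V)) (by
      rintro _ ⟨l, hl, rfl⟩
      have := hLq l hl
      rwa [← QuotientGroup.eq_one_iff, QuotientGroup.mk_pow] at this) ⟨s, hsL, rfl⟩
    (s2 := (h : F ⧸ V)) ⟨h, hhL, rfl⟩ ⟨y, hyH, hyV⟩
  rw [← hy]
  refine ⟨c, ?_, hcs, ?_⟩
  · rw [hc]
    simp only [QuotientGroup.mk_mul, QuotientGroup.mk_inv, hr]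
    group
  · have ht : r⁻¹ * y ∈ V := by
      rw [← QuotientGroup.eq, hr, hyV]
    have h1 := hct _ ht (mul_mem (inv_mem hrH) hyH)
    have e : y = r * (r⁻¹ * y) := by group
    rw [e, ← mul_assoc, hcr.eq, mul_assoc, ← h1, ← mul_assoc]

/-- central commutators are trivial, the other primes -/
theorem hccq (S : Sm m α q M G) (hS : ∀ s : G, s ^ q = 1 → SG (q ^ 1) M s)
    {F : Type} [Group F] [Finite F]
    (hI : Im G F) (hF : ∀ x : F, x ^ (M * q) = 1) (V L : Subgroup F) [hVn : V.Normal]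
    (hVL : V ≤ L)
    (hab : ∀ v ∈ V, ∀ w ∈ V, v * w = w * v) (hpow : ∀ v ∈ V, v ^ 2 = 1)
    (hLq : ∀ y ∈ L, y ^ q ∈ V) (hC : ∀ y ∈ L, (∀ v ∈ V, y * v = v * y) → y ∈ V)
    {s h : F} (hsL : s ∈ L) (hhL : h ∈ L) (hs : s ^ q = 1) (hh : h ^ q = 1)
    (hcs : (s : F ⧸ V) * ((s⁻¹ * h⁻¹ * s * h : F) : F ⧸ V) =
      ((s⁻¹ * h⁻¹ * s * h : F) : F ⧸ V) * s)
    (hch : (h : F ⧸ V) * ((s⁻¹ * h⁻¹ * s * h : F) : F ⧸ V) =
      ((s⁻¹ * h⁻¹ * s * h : F) : F ⧸ V) * h) :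
    s⁻¹ * h⁻¹ * s * h ∈ V := by
  have hq := S.hq
  have hq2 := S.hq2
  have h2q : Nat.Coprime 2 q := S.h2q
  have hcL : s⁻¹ * h⁻¹ * s * h ∈ L :=
    mul_mem (mul_mem (mul_mem (inv_mem hsL) (inv_mem hhL)) hsL) hhL
  refine hC _ hcL ?_
  refine cz V hab hpow (k := q) ((Nat.Prime.coprime_iff_not_dvd Nat.prime_two).1 S.h2q) (hLq _ hcL) fun v hv => ?_
  obtain ⟨y, hy⟩ : ∃ y, y = v * h * v⁻¹ := ⟨_, rfl⟩
  have hyq : y ^ q = 1 := by rw [hy, conj_pow, hh, mul_one, mul_inv_cancel]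
  have hyV : (y : F ⧸ V) = h := by
    rw [hy, QuotientGroup.mk_mul, QuotientGroup.mk_mul, QuotientGroup.mk_inv,
      (QuotientGroup.eq_one_iff v).2 hv, one_mul, inv_one, mul_one]
  have hyL : y ∈ L := by
    rw [hy]
    exact mul_mem (mul_mem (hVL hv) hhL) (inv_mem (hVL hv))
  obtain ⟨H, hH⟩ : ∃ H, H = c2 s y := ⟨_, rfl⟩
  have hsH : s ∈ H := by rw [hH]; exact Subgroup.subset_closure (by simp)
  have hyH : y ∈ H := by rw [hH]; exact Subgroup.subset_closure (by simp)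
  rw [← hy]
  obtain ⟨c, hc⟩ : ∃ c, c = s⁻¹ * (y⁻¹ * s * y) := ⟨_, rfl⟩
  have hcH : c ∈ H := by
    rw [hc]
    exact mul_mem (inv_mem hsH) (mul_mem (mul_mem (inv_mem hyH) hsH) hyH)
  have hcV : (c : F ⧸ V) = ((s⁻¹ * h⁻¹ * s * h : F) : F ⧸ V) := by
    rw [hc]
    simp only [QuotientGroup.mk_mul, QuotientGroup.mk_inv, hyV]
    group
  have hcN : c ∈ Ncl s y := by
    rw [hc]
    refine mul_mem (inv_mem (self_mem_Ncl s y)) ?_
    have h1 := Ncl_conj (s := s) (y := y) (g := y⁻¹) (inv_mem (Subgroup.subset_closure (by simp)))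
      (self_mem_Ncl s y)
    rwa [inv_inv] at h1
  have hcL' : c ∈ L := by
    rw [hc]
    exact mul_mem (inv_mem hsL) (mul_mem (mul_mem (inv_mem hyL) hsL) hyL)
  have hNn : ((Ncl s y).subgroupOf H).Normal :=
    ⟨fun x hx g => Ncl_conj (by rw [← hH]; exact g.2) hx⟩
  have key := cent_cq hq hq2 (H := H) (V.subgroupOf H) ((Ncl s y).subgroupOf H)
    (fun v hv w hw => Subtype.ext (hab v hv w hw)) (fun v hv => Subtype.ext (hpow v hv))
    (s := ⟨s, hsH⟩) (y := ⟨y, hyH⟩) (c := ⟨c, hcH⟩) (Subtype.ext hs)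
    (fun τ hτV hτN hτs => by
      have h2α : (τ : F) ^ M = 1 := by
        obtain ⟨k, hk⟩ : 2 ∣ M := S.h2M
        have h0 : (τ : F) ^ 2 = 1 := hpow _ hτV
        rw [hk, pow_mul, h0, one_pow]
      exact Subtype.ext (cqfO S hS hI hyq hs (τ := (τ : F)) hτN (congrArg Subtype.val hτs) h2α))
    hcN (Subtype.ext (by
      change y⁻¹ * s * y = s * c
      rw [hc]
      group))
    (hLq c hcL')
    (by
      change s * c * s⁻¹ * c⁻¹ ∈ V
      rw [← QuotientGroup.eq_one_iff]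
      simp only [QuotientGroup.mk_mul, QuotientGroup.mk_inv]
      rw [hcV, hcs]
      group)
    (by
      change y * c * y⁻¹ * c⁻¹ ∈ V
      rw [← QuotientGroup.eq_one_iff]
      simp only [QuotientGroup.mk_mul, QuotientGroup.mk_inv]
      rw [hcV, hyV, hch]
      group)
  have key' : ∀ t ∈ V, t ∈ H → Commute t c := fun t ht htH =>
    congrArg Subtype.val (key ⟨t, htH⟩ ht)
  obtain ⟨a, b, ⟨a', ha'⟩, -, ha, -, -⟩ := crt S.hM
  obtain ⟨c', hc'⟩ : ∃ c', c' = c ^ a := ⟨_, rfl⟩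
  have hc'q : c' ^ q = 1 := by
    rw [hc', ← pow_mul, ha', show M * a' * q = (M * q) * a' from by ring, pow_mul, hF,
      one_pow]
  have hc'V : (c' : F ⧸ V) = ((s⁻¹ * h⁻¹ * s * h : F) : F ⧸ V) := by
    rw [hc', QuotientGroup.mk_pow, hcV]
    apply ha
    rw [← QuotientGroup.mk_pow, QuotientGroup.eq_one_iff]
    exact hLq _ hcL
  have hc'H : c' ∈ H := by
    rw [hc']
    exact pow_mem hcH a
  have hc't : ∀ t ∈ V, t ∈ H → Commute c' t := by
    intro t ht htH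
    rw [hc']
    exact ((key' t ht htH).pow_right a).symm
  have comm : ∀ g ∈ H, (g : F ⧸ V) * (c' : F ⧸ V) = (c' : F ⧸ V) * g → c' * g = g * c' := by
    intro g hg hgc
    obtain ⟨κ, hκ⟩ : ∃ κ, κ = c' * g * c'⁻¹ * g⁻¹ := ⟨_, rfl⟩
    have hκV : κ ∈ V := by
      rw [hκ, ← QuotientGroup.eq_one_iff]
      simp only [QuotientGroup.mk_mul, QuotientGroup.mk_inv]
      rw [← hgc]
      group
    have hκH : κ ∈ H := by
      rw [hκ]
      exact mul_mem (mul_mem (mul_mem hc'H hg) (inv_mem hc'H)) (inv_mem hg)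
    have h6 := W629.comm_pow (x := c') (y := g) (c := κ) hκ.symm (hc't κ hκV hκH) q
    have h7 : κ ^ q = 1 := by
      rw [← h6, hc'q]
      group
    have h8 := W629.eq_one_of_coprime h2q (hpow κ hκV) h7
    rw [h8, eq_comm, mul_inv_eq_one, mul_inv_eq_iff_eq_mul] at hκ
    exact hκ
  refine ⟨c', hc'V, comm s hsH (by rw [hc'V]; exact hcs), comm y hyH ?_⟩
  rw [hc'V, hyV]
  exact hch

/-- the configuration of the theorem of Hall and Higman with commutative `L / V` -/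
theorem conf_ab (S : Sm m α q M G) {F : Type} [Group F] [Finite F]
    (hF : ∀ x : F, x ^ (2 ^ α * m) = 1) {x : F}
    (hx : x ^ 2 ^ α = 1) (V L : Subgroup F) [hV : V.Normal] (hVL : V ≤ L)
    (hab : ∀ v ∈ V, ∀ w ∈ V, v * w = w * v) (hpow : ∀ v ∈ V, v ^ 2 = 1)
    (hLq : ∀ y ∈ L, y ^ q ∈ V) (hxL : ∀ y ∈ L, x * y * x⁻¹ ∈ L)
    (hC : ∀ y ∈ L, (∀ v ∈ V, y * v = v * y) → y ∈ V)
    (hcm : ∀ a ∈ L, ∀ b ∈ L, (a : F ⧸ V) * b = b * a) {s : F} (hs : s ∈ L) :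
    x ^ 2 ^ (α - 1) * s * (x ^ 2 ^ (α - 1))⁻¹ * s⁻¹ ∈ V := by
  have hxn : x ∈ Subgroup.normalizer (L : Set F) := mem_norm (Nat.pow_pos (by norm_num)) hx hxL
  obtain ⟨F', hF'⟩ : ∃ F', F' = XZs L x hxn := ⟨_, rfl⟩
  have hxF' : x ∈ F' := by
    rw [hF']
    refine ⟨-1, ?_⟩
    rw [zpow_neg_one, mul_inv_cancel]
    exact one_mem _
  have hLF' : L ≤ F' := by
    intro y hy
    rw [hF']
    refine ⟨0, ?_⟩
    rwa [zpow_zero, mul_one]
  have hF'n : F' ≤ Subgroup.normalizer (L : Set F) := by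
    intro y hy
    rw [hF'] at hy
    obtain ⟨j, hj⟩ := hy
    have h1 := mul_mem (Subgroup.le_normalizer hj) (inv_mem (zpow_mem hxn j))
    rwa [mul_inv_cancel_right] at h1
  -- the exponent
  obtain ⟨m', hMm', hm'⟩ := S.hqm
  have hqm' : Nat.Coprime q m' := by
    have h1 := S.hM
    rw [hMm'] at h1
    exact (Nat.Coprime.coprime_mul_left h1).symm
  have h2m' : Nat.Coprime 2 m' := by
    rw [Nat.Prime.coprime_iff_not_dvd Nat.prime_two]
    intro h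
    apply S.S.hm
    rw [hm']
    exact h.trans (dvd_mul_left _ _)
  have hexp : ∀ y : F', y ^ (2 ^ α * q ^ 1) = 1 := by
    rintro ⟨y, hy⟩
    apply Subtype.ext
    change y ^ (2 ^ α * q ^ 1) = 1
    have hy' := hy
    rw [hF'] at hy'
    obtain ⟨j, hj⟩ := hy'
    have h1 := xz_pow hxn hx hj
    have h2 := hpow _ (hLq _ h1)
    have h3 : y ^ (2 ^ (α + 1) * q) = 1 := by
      rw [← h2, ← pow_mul, ← pow_mul]
      congr 1
      ring
    have h4 := orderOf_dvd_of_pow_eq_one h3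
    have h5 := orderOf_dvd_of_pow_eq_one (hF y)
    rw [hm', ← mul_assoc] at h5
    apply orderOf_dvd_iff_pow_eq_one.1
    rw [pow_one]
    refine Nat.Coprime.dvd_of_dvd_mul_right ?_ h5
    refine Nat.Coprime.coprime_dvd_left h4 (Nat.Coprime.mul_left ?_ hqm')
    exact Nat.Coprime.pow_left _ h2m'
  exact no_confC (p := 2) (q := q) (β := 1) Nat.prime_two S.hq S.hq2.symm S.hα
    (F := F') hexp (x := ⟨x, hxF'⟩)
    (Subtype.ext hx) (V.subgroupOf F') (L.subgroupOf F')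
    ⟨fun v hv g => hV.conj_mem v hv g⟩
    ⟨fun v hv g => ((Subgroup.mem_normalizer_iff.1 (hF'n g.2)) v).1 hv⟩
    (fun v hv => hVL hv) (fun v hv w hw => Subtype.ext (hab v hv w hw))
    (fun v hv => Subtype.ext (hpow v hv))
    (fun y hy => by
      change (y : F) ^ q ^ 1 ∈ V
      rw [pow_one]
      exact hLq y hy)
    (fun a ha b hb => by
      change (a : F) * b * (a : F)⁻¹ * (b : F)⁻¹ ∈ V
      have h7 : ((a : F) : F ⧸ V) * ((b : F) : F ⧸ V) = (b : F) * (a : F) := hcm _ ha _ hb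
      rw [← QuotientGroup.eq_one_iff]
      have h8 : (((a : F) * b * (a : F)⁻¹ * (b : F)⁻¹ : F) : F ⧸ V) =
        ((a : F) : F ⧸ V) * ((b : F) : F ⧸ V) * ((a : F) : F ⧸ V)⁻¹ * ((b : F) : F ⧸ V)⁻¹ := rfl
      rw [h8, h7]
      group)
    (fun y hy hyv => hC y hy fun v hv => congrArg Subtype.val (hyv ⟨v, hLF' (hVL hv)⟩ hv))
    (s := ⟨s, hLF' hs⟩) hs

/-- the configuration does not occur for the prime `q` -/
theorem noC_q (S : Sm m α q M G) (hex : q = 3 ∨ ∀ k : ℕ, 1 ≤ k → 2 ^ k ≠ q - 1) :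
    NoC G α m q := by
  intro F _ _ hI hF x hx V L hV hVL hab hpow hLq hxL hC s hs
  have hq := S.hq
  obtain ⟨m', hMm', hm'⟩ := S.hqm
  have hqm' : Nat.Coprime q m' := by
    have h1 := S.hM
    rw [hMm'] at h1
    exact (Nat.Coprime.coprime_mul_left h1).symm
  have hLq' : ∀ y ∈ L, y ^ q ∈ V := by
    intro y hy
    obtain ⟨j, hj⟩ := hLq y hy
    have h1 := pow_mem_of (V := V) (a := 2 ^ α) (q := q) (β := 1) (m' := m') hq
      (Nat.Coprime.pow_right _ S.h2q.symm) hqm' (by rw [pow_one, ← hm']; exact hF y) hj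
    rwa [pow_one] at h1
  have hFM : ∀ x : F, x ^ (M * q) = 1 := by
    rw [S.hn]
    exact hF
  refine conf_ab S hF hx V L hVL hab hpow hLq' hxL hC ?_ hs
  refine ab_core hq S.hM hFM V L hLq' fun s h hsL hhL hs hh hcs hch => ?_
  rcases hex with rfl | hex
  · exact hcc3 S hI hFM V L hVL hab hpow hLq' hC hsL hhL hs hh
  · exact hccq S (fun s hs => ssq S hex hs) hI hFM V L hVL hab hpow hLq' hC hsL hhL hs hh hcs hch

end Pool.Agent.V5helper30.OE
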