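import Mathlib
import Pool.Agent.V5helper30.OE.Exc

set_option autoImplicit false

/-!
# One generator of odd prime order: the induction
-/

namespace Pool.Agent.V5helper30.OE

open Pool.Agent.H32BU Pool.Agent.W629 Pool.Agent.TH69.Mtn Pool.Agent.TH69.Od Pool.Agent.TH69.Og
open Pool.Agent.TH69.Oh Pool.Agent.TH69.Ok Pool.Agent.TH69.Pq Pool.Agent.N6.Pf
open Pool.Agent.N6.TrN (NoEl)
open Pool.Agent.V5helper30.OP (OPr OPP)
open Pool.Agent.V5helper30.OQ (fs_sub rad_step PR)

universe u v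

theorem noEl_inj {n m : ℕ} {K : Type u} {L : Type v} [Group K] [Group L] (f : K →* L)
    (hf : Function.Injective f) (hmn : m ∣ n) (h : NoEl n L) : NoEl m K := by
  intro k hk hk2 hd g
  rw [← orderOf_injective f hf]
  exact h k hk hk2 (hd.trans hmn) (f g)

/-- elements of prime order in groups of odd exponent -/
theorem opr_of_pr {m : ℕ} (hm : ¬ 2 ∣ m) {G : Type u} [Group G] (hG : ∀ x : G, x ^ m = 1) {y : G}
    (hy : PR y) : OPr y := by
  obtain ⟨r, hr, hyr⟩ := hy
  by_cases h : r = 2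
  · subst h
    have hy1 : y = 1 := W629.eq_one_of_coprime
      ((Nat.Prime.coprime_iff_not_dvd Nat.prime_two).2 hm) hyr (hG y)
    exact ⟨3, Nat.prime_three, by norm_num, by rw [hy1, one_pow]⟩
  · exact ⟨r, hr, h, hyr⟩

theorem opr_map {G : Type u} {H : Type v} [Group G] [Group H] {y : G} (f : G →* H) (h : OPr y) :
    OPr (f y) := by
  obtain ⟨s, h1, h2, h3⟩ := h
  exact ⟨s, h1, h2, by rw [← map_pow, h3, map_one]⟩

/-- radicals for divisors of the exponent -/
theorem rad_drop {G : Type} [Group G] {n m : ℕ} (hn : n ≠ 0) (hmn : m ∣ n)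
    (hexp : ∀ x : G, x ^ n = 1) (hR : ∀ p : ℕ, p.Prime → Rad (qp p n) G = ⊥) :
    ∀ p : ℕ, p.Prime → Rad (qp p m) G = ⊥ := by
  intro p hp
  obtain ⟨k, hk1, hk2⟩ := qp_fac hn hp
  have h1 : qp p m ∣ qp p n := Nat.ordProj_dvd_ordProj_of_dvd hn hmn p
  have h2 := le_rad (G := G) (a := qp p n) (b := k) (Nat.Coprime.pow_left _ hk1)
    (by rw [hk2]; exact hexp) (Rad (qp p m) G) (fun x hx => by
      obtain ⟨c, hc⟩ := h1
      rw [hc, pow_mul, rad_pow hx, one_pow])
  rw [hR p hp] at h2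
  exact le_bot_iff.1 h2

/-- subgroups of exponent `2 ^ α * m'` -/
theorem Sv.sub {m m' α : ℕ} {G : Type} [Group G] (S : Sv m α G) (hm : m' ∣ m) (A : Subgroup G)
    (hexp : ∀ x ∈ A, x ^ (2 ^ α * m') = 1) : Sv m' α A where
  hm := fun h => S.hm (h.trans hm)
  exp := fun x => Subtype.ext (hexp x x.2)
  f1 := fun x y hy => fs_sub A x y (S.f1 _ _ (opr_map A.subtype hy))
  f3 := fun h w z hw hz => fs_sub A w z (S.f3 h _ _ (congrArg Subtype.val hw)
    (congrArg Subtype.val hz))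

/-- the main theorem for groups without normal subgroups of prime power exponent -/
theorem trivE : ∀ n : ℕ, ∀ α m : ℕ, 2 ^ α * m = n → SqP n → ∀ {G : Type} [Group G], NoEl n G →
    Sv m α G → (∀ p : ℕ, p.Prime → Rad (qp p n) G = ⊥) → ∀ x : G, x = 1 := by
  intro n
  induction n using Nat.strong_induction_on with
  | _ n ih =>
  rintro α m rfl C G _ NE S hR
  have hn0 := S.hn0
  have hm0 := S.hm0
  have h2m := S.hm
  have Cm : SqP m := C.of_dvd (dvd_mul_left _ _)
  rcases Nat.eq_zero_or_pos α with rfl | hα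
  · -- odd exponents
    have hexp : ∀ x : G, x ^ m = 1 := by
      intro x
      have := S.exp x
      rwa [pow_zero, one_mul] at this
    refine OQ.triv m Cm ⟨h2m, hexp, fun x y hy => S.f1 x y (opr_of_pr h2m hexp hy)⟩ ?_
    intro p hp
    have := hR p hp
    rwa [pow_zero, one_mul] at this
  -- the radical of exponent `m`
  have rm : Rad m G = ⊥ := by
    have hexp : ∀ x : Rad m G, x ^ m = 1 := fun x => Subtype.ext (rad_pow x.2)
    have h1 := OQ.triv m Cm (G := Rad m G) ⟨h2m, hexp, fun x y hy =>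
      fs_sub _ x y (S.f1 _ _ (opr_map (Rad m G).subtype (opr_of_pr h2m hexp hy)))⟩
      (rad_step hn0 (dvd_mul_left _ _) S.exp hR (Rad m G) (rad_normal m))
    rw [eq_bot_iff]
    intro x hx
    exact congrArg Subtype.val (h1 ⟨x, hx⟩)
  have hqp : qp 2 (2 ^ α * m) = 2 ^ α := by
    unfold qp
    have h1 : (2 ^ α * m).factorization 2 = α := by
      rw [Nat.factorization_mul (pow_ne_zero _ two_ne_zero) hm0, Finsupp.add_apply,
        Nat.prime_two.factorization_pow, Finsupp.single_eq_same,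
        Nat.factorization_eq_zero_of_not_dvd h2m, add_zero]
    rw [h1]
  have r2 : Rad (2 ^ α) G = ⊥ := by
    rw [← hqp]
    exact hR 2 Nat.prime_two
  -- the exceptional configurations
  have hNC : ∀ q : ℕ, q.Prime → q ∣ m → NoC G α m q := by
    intro q hq hqm
    have hq2 : q ≠ 2 := by
      rintro rfl
      exact h2m hqm
    by_cases hex : ∀ μ, 1 ≤ μ → μ ≤ α → ∀ r, 1 ≤ r → q ^ r ≠ 2 ^ μ - 1
    · exact noC_of_hex hq hq2 hα h2m hex
    push Not at hex
    obtain ⟨μ, hμ1, hμ2, r, hr, h⟩ := hex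
    obtain ⟨h3, h4⟩ := mersenne hq hr h
    have h5 : 2 ^ μ ∣ 2 ^ α * m := (pow_dvd_pow 2 hμ2).trans (dvd_mul_right _ _)
    by_cases hqq : q ^ 2 ∣ m
    · refine Pool.Agent.N6.NoCx.noC_of_ord hq hq2 hα h2m fun μ' h1' h2' r' hr' h' g hg => ?_
      obtain ⟨h3', h4'⟩ := mersenne hq hr' h'
      have h5 : 2 ^ μ' ∣ 2 ^ α * m := (pow_dvd_pow 2 h2').trans (dvd_mul_right _ _)
      have h7 : 2 ^ μ' * q ^ 2 ∣ 2 ^ α * m := Nat.mul_dvd_mul (pow_dvd_pow 2 h2') hqq
      have h8 : orderOf g ≠ 0 := by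
        intro h8
        rw [orderOf_eq_zero_iff'] at h8
        exact h8 _ (Nat.pos_of_ne_zero hn0) (S.exp g)
      refine NE μ' h4' (by rw [← h3']; exact hq) (by rw [← h3']; exact h7)
        (g ^ (orderOf g / (2 ^ μ' * q))) ?_
      rw [← h3']
      exact orderOf_pow_orderOf_div h8 hg
    · obtain ⟨m', hm'⟩ := hqm
      have hqm' : Nat.Coprime q m' := by
        rw [Nat.Prime.coprime_iff_not_dvd hq]
        rintro ⟨c, rfl⟩
        apply hqq
        rw [hm']
        exact ⟨c, by ring⟩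
      have hm'0 : 0 < m' := by
        rcases Nat.eq_zero_or_pos m' with h | h
        · exact absurd (by rw [hm', h, mul_zero]) hm0
        · exact h
      have hMn : 2 ^ α * m' ∣ 2 ^ α * m := Nat.mul_dvd_mul dvd_rfl (by rw [hm']; exact dvd_mul_left _ _)
      have hlt : 2 ^ α * m' < 2 ^ α * m := by
        refine Nat.mul_lt_mul_of_pos_left ?_ (Nat.pow_pos (by norm_num))
        rw [hm']
        exact lt_mul_of_one_lt_left hm'0 hq.one_lt
      have hM : Nat.Coprime (2 ^ α * m') q := Nat.Coprime.mul_left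
        (Nat.Coprime.pow_left _ ((Nat.coprime_primes Nat.prime_two hq).2 hq2.symm)) hqm'.symm
      have rM : Rad (2 ^ α * m') G = ⊥ := by
        have h1 := ih (2 ^ α * m') hlt α m' rfl (C.of_dvd hMn) (G := Rad (2 ^ α * m') G)
          (noEl_inj (Rad (2 ^ α * m') G).subtype (Subgroup.subtype_injective _) hMn NE)
          (S.sub (by rw [hm']; exact dvd_mul_left _ _) _ fun x hx => rad_pow hx)
          (rad_step hn0 hMn S.exp hR _ (rad_normal _))
        rw [eq_bot_iff]
        intro x hx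
        exact congrArg Subtype.val (h1 ⟨x, hx⟩)
      have hSm : Sm m α q (2 ^ α * m') G :=
        ⟨S, hq, hq2, hM, by rw [hm']; ring, hα, rM⟩
      refine noC_q hSm ?_
      by_cases hμ : μ = 2
      · left
        rw [h3, hμ]
        norm_num
      · right
        intro k hk h8
        obtain ⟨ν, rfl⟩ : ∃ ν, μ = ν + 3 := ⟨μ - 3, by omega⟩
        obtain ⟨j, rfl⟩ : ∃ j, k = j + 1 := ⟨k - 1, by omega⟩
        have h9 : 2 ^ (ν + 3) = 8 * 2 ^ ν := by ring
        have h10 : 0 < 2 ^ ν := Nat.pow_pos (by norm_num)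
        rw [h3, h9, pow_succ] at h8
        obtain ⟨i, rfl | rfl⟩ : ∃ i, j = 0 ∨ j = i + 1 := by
          rcases j with _ | j
          · exact ⟨0, Or.inl rfl⟩
          · exact ⟨j, Or.inr rfl⟩
        · omega
        · rw [pow_succ] at h8
          omega
  -- dropping the exponent
  obtain ⟨β, rfl⟩ : ∃ β, α = β + 1 := ⟨α - 1, by omega⟩
  have hexp : ∀ x : G, x ^ (2 ^ β * m) = 1 := by
    intro x
    have h3 : (x ^ m) ^ 2 ^ (β + 1) = 1 := by rw [← pow_mul, S.exp']
    have h4 := tt2 S hNC h3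
    rw [Nat.add_sub_cancel] at h4
    have h5 : (x ^ m) ^ 2 ^ β * (x ^ m) ^ 2 ^ β = 1 := by
      rw [← pow_two, ← pow_mul, ← pow_succ, h3]
    by_contra hne
    have hw1 : (x ^ m) ^ 2 ^ β ≠ 1 := by
      rw [← pow_mul, mul_comm]
      exact hne
    obtain ⟨v, hvp, hv1, hl⟩ := invol S r2 h5 hw1
    exact no_inv S hα rm h4 hvp hv1 hl
  have hup : ∀ y : G, y ^ 2 ^ β = 1 → y ^ 2 ^ (β + 1) = 1 := by
    intro y hy
    rw [pow_succ, pow_mul, hy, one_pow]
  have hdv : 2 ^ β * m ∣ 2 ^ (β + 1) * m := mul_dvd_mul_right (pow_dvd_pow 2 (by omega)) m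
  have hlt : 2 ^ β * m < 2 ^ (β + 1) * m :=
    Nat.mul_lt_mul_of_pos_right (Nat.pow_lt_pow_right (by norm_num) (by omega))
      (Nat.pos_of_ne_zero hm0)
  exact ih (2 ^ β * m) hlt β m rfl (C.of_dvd hdv)
    (noEl_inj (MonoidHom.id G) Function.injective_id hdv NE)
    ⟨h2m, hexp, S.f1, fun h w z hw hz => S.f3 (by omega) w z hw (hup z hz)⟩
    (rad_drop hn0 hdv S.exp hR)

end Pool.Agent.V5helper30.OE
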