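import Mathlib
import Pool.Agent.V5helper30.OE.Main
import Pool.Agent.V5helper30.OP.LF

set_option autoImplicit false

/-!
# One generator of odd prime order: all universes and local finiteness
-/

namespace Pool.Agent.V5helper30.OE

open Pool.Agent.H32BU Pool.Agent.W629 Pool.Agent.TH69.Mtn Pool.Agent.TH69.Od Pool.Agent.TH69.Og
open Pool.Agent.TH69.Oh Pool.Agent.TH69.Ok Pool.Agent.TH69.Pq Pool.Agent.N6.Pf
open Pool.Agent.N6.TrN (NoEl)
open Pool.Agent.N6.Pg (Cq cq2 rad_quot)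
open Pool.Agent.V5helper30.OP (OPr OPP fs_transfer fs_of_surj c2_one fs_quot opp_cases)
open Pool.Agent.V5helper30.OQ (PO Sp trivP)

universe u v

/-- small subgroups without normal subgroups of prime power exponent -/
theorem small_sub {n : ℕ} (G : Type u) [Group G] (hR : ∀ s : ℕ, s.Prime → Rad (qp s n) G = ⊥)
    (g : G) : ∃ (Q : Type) (_ : Group Q) (φ : Q →* G), Function.Injective φ ∧ (∃ x, φ x = g) ∧
      ∀ s : ℕ, s.Prime → Rad (qp s n) Q = ⊥ := by
  classical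
  have hex : ∀ (s : ℕ) (e : G), ∃ z : G, s.Prime → e ≠ 1 → e ^ qp s n = 1 →
      z ^ qp s n = 1 ∧ (e * z) ^ qp s n ≠ 1 := by
    intro s e
    by_contra hcon
    push Not at hcon
    obtain ⟨hs, he1, he, -⟩ := hcon 1
    apply he1
    have h3 : e ∈ Rad (qp s n) G := ⟨he, fun z hz => (hcon z).2.2.2 hz⟩
    rw [hR s hs] at h3
    exact h3
  choose f hf using hex
  obtain ⟨C, hC, hgC, hfC⟩ := exists_closed f g
  have hsm : Small.{0} C := inferInstance
  let e : Shrink.{0} C ≃* C := Shrink.mulEquiv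
  let φ : Shrink.{0} C →* G := C.subtype.comp e.toMonoidHom
  have hφ : Function.Injective φ := fun x y hxy => e.injective (Subtype.ext hxy)
  have hmem : ∀ x, φ x ∈ C := fun x => (e x).2
  refine ⟨Shrink.{0} C, inferInstance, φ, hφ, ⟨e.symm ⟨g, hgC⟩, ?_⟩, ?_⟩
  · change ((e (e.symm _) : C) : G) = _
    rw [MulEquiv.apply_symm_apply]
  · intro s hs
    rw [Subgroup.eq_bot_iff_forall]
    rintro x ⟨hx, hx'⟩
    by_contra hne
    obtain ⟨h4, h5⟩ := hf s (φ x) hs (fun h => hne (hφ (by rw [h, map_one])))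
      (by rw [← map_pow, hx, map_one])
    obtain ⟨z, hz⟩ : ∃ z, φ z = f s (φ x) := by
      refine ⟨e.symm ⟨f s (φ x), hfC s _ (hmem x)⟩, ?_⟩
      change ((e (e.symm _) : C) : G) = _
      rw [MulEquiv.apply_symm_apply]
    have h6 := hx' z (hφ (by rw [map_pow, hz, h4, map_one]))
    apply h5
    rw [← hz, ← map_mul, ← map_pow, h6, map_one]

/-- nontrivial radicals -/
theorem normal_of {n : ℕ} (G : Type u) [Group G] (hnt : Nontrivial G)
    (h : (∀ s : ℕ, s.Prime → Rad (qp s n) G = ⊥) → ∀ g : G, g = 1) :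
    ∃ p k : ℕ, p.Prime ∧ p ^ k ∣ n ∧ ∃ N : Subgroup G, N.Normal ∧ N ≠ ⊥ ∧
      ∀ x ∈ N, x ^ p ^ k = 1 := by
  by_contra hcon
  push Not at hcon
  obtain ⟨g, hg⟩ := exists_ne (1 : G)
  apply hg
  refine h (fun s hs => ?_) g
  by_contra hne
  obtain ⟨x, hx, hx'⟩ := hcon s (n.factorization s) hs (Nat.ordProj_dvd n s)
    (Rad (qp s n) G) inferInstance hne
  exact hx' hx.1

/-- the hypotheses on the group, in all universes -/
structure Hv (m α : ℕ) (G : Type u) [Group G] : Prop where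
  exp : ∀ x : G, x ^ (2 ^ α * m) = 1
  f1 : ∀ x y : G, OPr y → Finite (Subgroup.closure {x, y}) ∧
    Group.IsSolvable (Subgroup.closure {x, y})
  f3 : 3 ≤ α → ∀ w z : G, w ^ 2 = 1 → z ^ 2 ^ α = 1 →
    Finite (Subgroup.closure {w, z}) ∧ Group.IsSolvable (Subgroup.closure {w, z})

theorem Hv.sv {m α : ℕ} (hm : ¬ 2 ∣ m) {G : Type} [Group G] (H : Hv m α G) : Sv m α G :=
  ⟨hm, H.exp, H.f1, H.f3⟩

theorem Hv.transfer {m α : ℕ} {Q : Type v} {G : Type u} [Group Q] [Group G] (H : Hv m α G)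
    (f : Q →* G) (hf : Function.Injective f) : Hv m α Q where
  exp x := hf (by rw [map_pow, map_one]; exact H.exp _)
  f1 x y hy := fs_transfer f hf x y (H.f1 _ _ (opr_map f hy))
  f3 h w z hw hz := fs_transfer f hf w z (H.f3 h _ _ (by rw [← map_pow, hw, map_one])
    (by rw [← map_pow, hz, map_one]))

/-- normal subgroups of prime power exponent -/
theorem exists_normalE {m α : ℕ} (hm : ¬ 2 ∣ m) (C : SqP (2 ^ α * m)) (G : Type u) [Group G]
    (NE : NoEl (2 ^ α * m) G) (H : Hv m α G) (hnt : Nontrivial G) :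
    ∃ p k : ℕ, p.Prime ∧ p ^ k ∣ 2 ^ α * m ∧ ∃ N : Subgroup G, N.Normal ∧ N ≠ ⊥ ∧
      ∀ x ∈ N, x ^ p ^ k = 1 := by
  refine normal_of G hnt fun hR g => ?_
  obtain ⟨Q, _, φ, hφ, ⟨x, rfl⟩, hRQ⟩ := small_sub G hR g
  rw [trivE _ α m rfl C (noEl_inj φ hφ dvd_rfl NE) ((H.transfer φ hφ).sv hm) hRQ x, map_one]

/-- the hypotheses in which the least prime divisor plays a special role, in all universes -/
structure Hp (p α M : ℕ) (G : Type u) [Group G] : Prop where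
  exp : ∀ x : G, x ^ (p ^ α * M) = 1
  f1 : ∀ x y : G, PO p y → Finite (Subgroup.closure {x, y}) ∧
    Group.IsSolvable (Subgroup.closure {x, y})
  f2 : ∀ x y : G, x ^ p ^ α = 1 → y ^ p = 1 → Finite (Subgroup.closure {x, y}) ∧
    Group.IsSolvable (Subgroup.closure {x, y})

theorem po_map {p : ℕ} {G : Type u} {H : Type v} [Group G] [Group H] {y : G} (f : G →* H)
    (h : PO p y) : PO p (f y) := by
  obtain ⟨s, h1, h2, h3⟩ := h
  exact ⟨s, h1, h2, by rw [← map_pow, h3, map_one]⟩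

theorem Hp.transfer {p M α : ℕ} {Q : Type v} {G : Type u} [Group Q] [Group G] (H : Hp p α M G)
    (f : Q →* G) (hf : Function.Injective f) : Hp p α M Q where
  exp x := hf (by rw [map_pow, map_one]; exact H.exp _)
  f1 x y hy := fs_transfer f hf x y (H.f1 _ _ (po_map f hy))
  f2 w z hw hz := fs_transfer f hf w z (H.f2 _ _ (by rw [← map_pow, hw, map_one])
    (by rw [← map_pow, hz, map_one]))

/-- normal subgroups of prime power exponent, the least prime divisor playing a special role -/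
theorem exists_normalP {p M α : ℕ} (hp : p.Prime) (hpM : Nat.Coprime p M)
    (hodd : ¬ 2 ∣ p ^ α * M) (C : SqP M) (hdiv : ∀ s : ℕ, s.Prime → s ∣ M → p ∣ s - 1)
    (G : Type u) [Group G] (H : Hp p α M G) (hnt : Nontrivial G) :
    ∃ r k : ℕ, r.Prime ∧ r ^ k ∣ p ^ α * M ∧ ∃ N : Subgroup G, N.Normal ∧ N ≠ ⊥ ∧
      ∀ x ∈ N, x ^ r ^ k = 1 := by
  refine normal_of G hnt fun hR g => ?_
  obtain ⟨Q, _, φ, hφ, ⟨x, rfl⟩, hRQ⟩ := small_sub G hR g
  have HQ := H.transfer φ hφ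
  rw [trivP C hdiv α ⟨hp, hpM, hodd, HQ.exp, HQ.f1, HQ.f2⟩ hRQ x, map_one]

/-- finite groups whose exponent has at most two prime divisors are soluble, all universes -/
theorem sol_two {n : ℕ} (hn : 0 < n) (hc : n.primeFactors.card ≤ 2) {G : Type u} [Group G]
    (hG : ∀ x : G, x ^ n = 1) (K : Subgroup G) (hK : Finite K) : Group.IsSolvable K := by
  obtain ⟨p, q, a, b, hp, hq, e⟩ := two_primes n hn hc
  have eK : Shrink.{0} K ≃* K := Shrink.mulEquiv
  have hS : Group.IsSolvable (Shrink.{0} K) := by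
    have : Finite (Shrink.{0} K) := Finite.of_equiv _ eK.symm.toEquiv
    refine solv_of_exp p q a b hp hq fun x => ?_
    apply eK.injective
    rw [map_pow, map_one, ← e]
    exact Subtype.ext (hG _)
  exact Group.isSolvable_of_surjective (f := eK.toMonoidHom) eK.surjective

/-- elements of prime order, bounding the prime -/
theorem po_cases {n p : ℕ} {G : Type u} [Group G] (hG : ∀ x : G, x ^ n = 1) {y : G}
    (hy : PO p y) : y = 1 ∨ ∃ s : ℕ, s.Prime ∧ s ≠ p ∧ s ∣ n ∧ y ^ s = 1 := by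
  obtain ⟨s, hs, hsp, hys⟩ := hy
  by_cases h : s ∣ n
  · exact Or.inr ⟨s, hs, hsp, h, hys⟩
  · left
    exact W629.eq_one_of_coprime ((Nat.Prime.coprime_iff_not_dvd hs).2 h) hys (hG y)

theorem opr_po {G : Type u} [Group G] {y : G} : OPr y ↔ PO 2 y := Iff.rfl

/-- local finiteness from the quotients of the free Burnside group -/
theorem locfinE {m α : ℕ} (hm : ¬ 2 ∣ m) (C : SqP (2 ^ α * m))
    (hE : ∀ k : ℕ, 2 ≤ k → (2 ^ k - 1).Prime → ¬ 2 ^ k * (2 ^ k - 1) ^ 2 ∣ 2 ^ α * m)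
    (hL : ∀ p : ℕ, p.Prime → LocFin (qp p (2 ^ α * m)))
    (c1 : ∀ s : ℕ, s.Prime → s ∣ m → Finite (Bq (2 ^ α * m) s) ∧
      Group.IsSolvable (Bq (2 ^ α * m) s))
    (c3 : 3 ≤ α → Finite (Cq (2 ^ α * m) 2 (2 ^ α)) ∧
      Group.IsSolvable (Cq (2 ^ α * m) 2 (2 ^ α))) : LocFin (2 ^ α * m) := by
  intro G _ hG
  obtain ⟨M, hM, hML, hMmax⟩ := exists_radical G
  refine x_SCH G M hML ?_
  have hn : 2 ^ α * m ≠ 0 := by
    refine Nat.mul_ne_zero (pow_ne_zero _ two_ne_zero) ?_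
    rintro rfl
    exact hm (dvd_zero _)
  have hQ := exp_quot hG M
  have h1 : ∀ g : G ⧸ M, g = 1 := by
    refine trivE _ α m rfl C (fun k h1 h2 h3 => absurd h3 (hE k h1 h2))
      ⟨hm, hQ, fun x y hy => ?_, fun hα w z hw hz => ?_⟩
      fun s hs => rad_quot (hL s hs) M hML hMmax
    · rcases po_cases hQ hy with rfl | ⟨s, hs, hs2, hsn, hys⟩
      · exact c2_one hn (hQ x)
      · have hsm : s ∣ m := Nat.Coprime.dvd_of_dvd_mul_left (Nat.Coprime.pow_right _
          ((Nat.coprime_primes hs Nat.prime_two).2 hs2)) hsn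
        obtain ⟨f, hf⟩ := bq2 hQ x y hys
        exact fs_of_surj (c1 s hs hsm) f hf
    · obtain ⟨φ, hφ⟩ := cq2 hQ w z hw hz
      exact fs_of_surj (c3 hα) φ hφ
  intro S
  have : Subsingleton (G ⧸ M) := ⟨fun a b => by rw [h1 a, h1 b]⟩
  infer_instance

/-- local finiteness from the quotients of the free Burnside group, the least prime divisor playing
a special role -/
theorem locfinP {p M α : ℕ} (hp : p.Prime) (hpM : Nat.Coprime p M)
    (hodd : ¬ 2 ∣ p ^ α * M) (C : SqP M) (hdiv : ∀ s : ℕ, s.Prime → s ∣ M → p ∣ s - 1)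
    (hL : ∀ s : ℕ, s.Prime → LocFin (qp s (p ^ α * M)))
    (c1 : ∀ s : ℕ, s.Prime → s ∣ M → Finite (Bq (p ^ α * M) s) ∧
      Group.IsSolvable (Bq (p ^ α * M) s))
    (c2 : Finite (Cq (p ^ α * M) (p ^ α) p) ∧ Group.IsSolvable (Cq (p ^ α * M) (p ^ α) p)) :
    LocFin (p ^ α * M) := by
  intro G _ hG
  obtain ⟨N, hN, hNL, hNmax⟩ := exists_radical G
  refine x_SCH G N hNL ?_
  have hn : p ^ α * M ≠ 0 := by
    intro h
    rw [h] at hodd
    exact hodd (dvd_zero _)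
  have hQ := exp_quot hG N
  have h1 : ∀ g : G ⧸ N, g = 1 := by
    refine trivP C hdiv α ⟨hp, hpM, hodd, hQ, fun x y hy => ?_, fun w z hw hz => ?_⟩
      fun s hs => rad_quot (hL s hs) N hNL hNmax
    · rcases po_cases hQ hy with rfl | ⟨s, hs, hs2, hsn, hys⟩
      · exact c2_one hn (hQ x)
      · have hsm : s ∣ M := Nat.Coprime.dvd_of_dvd_mul_left (Nat.Coprime.pow_right _
          ((Nat.coprime_primes hs hp).2 hs2)) hsn
        obtain ⟨f, hf⟩ := bq2 hQ x y hys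
        exact fs_of_surj (c1 s hs hsm) f hf
    · obtain ⟨φ, hφ⟩ := cq2 hQ w z hw hz
      exact fs_of_surj c2 φ hφ
  intro S
  have : Subsingleton (G ⧸ N) := ⟨fun a b => by rw [h1 a, h1 b]⟩
  infer_instance

/-- local finiteness of groups -/
theorem lfE {m α : ℕ} (hm : ¬ 2 ∣ m) (C : SqP (2 ^ α * m))
    (hL : ∀ p : ℕ, p.Prime → LocFin (qp p (2 ^ α * m)))
    (hE : ∀ k : ℕ, 2 ≤ k → (2 ^ k - 1).Prime → ¬ 2 ^ k * (2 ^ k - 1) ^ 2 ∣ 2 ^ α * m)
    (G : Type) [Group G] (hG : ∀ x : G, x ^ (2 ^ α * m) = 1)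
    (h : ∀ x y : G, OPP y → Finite (c2 x y) ∧ Group.IsSolvable (c2 x y))
    (h3 : 3 ≤ α → ∀ w z : G, w ^ 2 ^ α = 1 → z ^ 2 ^ α = 1 →
      Finite (c2 w z) ∧ Group.IsSolvable (c2 w z)) : LF G := by
  obtain ⟨M, hM, hML, hMmax⟩ := exists_radical G
  have hn : 2 ^ α * m ≠ 0 := by
    refine Nat.mul_ne_zero (pow_ne_zero _ two_ne_zero) ?_
    rintro rfl
    exact hm (dvd_zero _)
  refine x_SCH G M hML ?_
  have lift2 : ∀ y : G ⧸ M, y ^ 2 ^ α = 1 → ∃ y' : G, y' ^ 2 ^ α = 1 ∧ (y' : G ⧸ M) = y := by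
    intro y hy
    obtain ⟨y0, rfl⟩ := QuotientGroup.mk_surjective y
    obtain ⟨a, -, ⟨a', ha'⟩, -, ha, -, -⟩ := crt (show Nat.Coprime m (2 ^ α) from
      (Nat.Coprime.pow_left _ ((Nat.Prime.coprime_iff_not_dvd Nat.prime_two).2 hm)).symm)
    refine ⟨y0 ^ a, ?_, ?_⟩
    · rw [ha', ← pow_mul, show m * a' * 2 ^ α = (2 ^ α * m) * a' from by ring, pow_mul, hG,
        one_pow]
    · rw [QuotientGroup.mk_pow]
      exact ha _ hy
  have h1 : ∀ g : G ⧸ M, g = 1 := by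
    refine trivE _ α m rfl C (fun k h1 h2 h3 => absurd h3 (hE k h1 h2))
      ⟨hm, exp_quot hG M, fun x y hy => ?_, fun hα w z hw hz => ?_⟩
      fun s hs => rad_quot (hL s hs) M hML hMmax
    · obtain ⟨x, rfl⟩ := QuotientGroup.mk_surjective x
      obtain ⟨s, hs, hs2, hys⟩ := hy
      obtain ⟨y', hy', rfl⟩ := lift_pp (QuotientGroup.mk' M) (QuotientGroup.mk'_surjective M) hn hG
        hs (k := 1) (by rw [pow_one]; exact hys)
      exact fs_quot M (h x y' ⟨s, _, hs, hs2, hy'⟩)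
    · obtain ⟨w', hw', rfl⟩ := lift2 w (by
        obtain ⟨c, hc⟩ : 2 ∣ 2 ^ α := dvd_pow_self 2 (by omega)
        rw [hc, pow_mul, hw, one_pow])
      obtain ⟨z', hz', rfl⟩ := lift2 z hz
      exact fs_quot M (h3 hα w' z' hw' hz')
  intro S
  have : Subsingleton (G ⧸ M) := ⟨fun a b => by rw [h1 a, h1 b]⟩
  infer_instance

/-- local finiteness of groups, all universes -/
theorem lfE_u {m α : ℕ} (hm : ¬ 2 ∣ m) (C : SqP (2 ^ α * m))
    (hL : ∀ p : ℕ, p.Prime → LocFin (qp p (2 ^ α * m)))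
    (hE : ∀ k : ℕ, 2 ≤ k → (2 ^ k - 1).Prime → ¬ 2 ^ k * (2 ^ k - 1) ^ 2 ∣ 2 ^ α * m)
    (G : Type u) [Group G] (hG : ∀ x : G, x ^ (2 ^ α * m) = 1)
    (h : ∀ x y : G, OPP y → Finite (Subgroup.closure {x, y}) ∧
      Group.IsSolvable (Subgroup.closure {x, y}))
    (h3 : 3 ≤ α → ∀ w z : G, w ^ 2 ^ α = 1 → z ^ 2 ^ α = 1 →
      Finite (Subgroup.closure {w, z}) ∧ Group.IsSolvable (Subgroup.closure {w, z}))
    (S : Set G) (hS : S.Finite) : Finite (Subgroup.closure S) :=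
  finite_closure_u S hS fun Q _ f hf => lfE hm C hL hE Q
    (fun x => hf (by rw [map_pow, map_one]; exact hG _))
    (fun x y hy => fs_transfer f hf x y (h _ _ (hy.map' f)))
    (fun hα w z hw hz => fs_transfer f hf w z (h3 hα _ _ (by rw [← map_pow, hw, map_one])
      (by rw [← map_pow, hz, map_one])))

end Pool.Agent.V5helper30.OE
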